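import Pool.Agent.Helper2.Malchar.Count

/-!
Subgroups generated by long words without cancellation; all their elements are good.
-/

namespace Pool.Agent.Helper2.Malchar

open Set Filter Topology Pointwise FreeGroup

variable {α : Type*} [DecidableEq α] {ι : Type*} [DecidableEq ι]

set_option linter.unusedSectionVars false

lemma norm_pow_ge {W : FreeGroup ι} (hW : W ≠ 1) (k : ℕ) : k ≤ (W ^ k).norm := by
  rw [norm_def, toWord_pow, reduceCyclically.reduce_flatten_replicate isReduced_toWord]
  have hne : reduceCyclically W.toWord ≠ [] := by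
    intro h
    have h1 := reduceCyclically.conj_conjugator_reduceCyclically W.toWord
    rw [h] at h1
    apply hW
    rw [← mk_toWord (x := W), ← h1, List.append_nil, ← mul_mk, ← inv_mk]
    group
  have hpos : 1 ≤ (reduceCyclically W.toWord).length := by
    rw [Nat.one_le_iff_ne_zero, Ne, List.length_eq_zero_iff]; exact hne
  split_ifs with h
  · simp [h]
  · simp only [List.length_append, List.length_flatten, List.map_replicate, List.sum_replicate,
      smul_eq_mul]
    nlinarith

lemma exists_translation {W : FreeGroup ι} (hW : W ≠ 1) :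
    ∃ l : ℝ, 0 < l ∧ Tendsto (fun k : ℕ => ((W ^ k).norm : ℝ) / k) atTop (𝓝 l) := by
  have hsub : Subadditive (fun n : ℕ => ((W ^ n).norm : ℝ)) := by
    intro m n
    have := norm_mul_le (W ^ m) (W ^ n)
    rw [← pow_add] at this
    show ((W ^ (m + n)).norm : ℝ) ≤ ((W ^ m).norm : ℝ) + ((W ^ n).norm : ℝ)
    exact_mod_cast this
  have h1 := hsub.tendsto_lim ⟨0, by
    rintro x ⟨n, rfl⟩
    positivity⟩
  refine ⟨hsub.lim, ?_, h1⟩
  have h2 : (1 : ℝ) ≤ hsub.lim := by
    refine ge_of_tendsto h1 ?_
    filter_upwards [eventually_ge_atTop 1] with n hn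
    rw [le_div_iff₀ (by exact_mod_cast hn), one_mul]
    exact_mod_cast norm_pow_ge hW n
  linarith

/-- block of a letter -/
def blk (w : ι → List (α × Bool)) (c : ι × Bool) : List (α × Bool) :=
  if c.2 then w c.1 else invRev (w c.1)

/-- concatenation of blocks -/
def cat (w : ι → List (α × Bool)) (X : List (ι × Bool)) : List (α × Bool) := X.flatMap (blk w)

@[simp] lemma cat_nil (w : ι → List (α × Bool)) : cat w [] = [] := rfl

lemma cat_cons (w : ι → List (α × Bool)) (c : ι × Bool) (X : List (ι × Bool)) :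
    cat w (c :: X) = blk w c ++ cat w X := by simp [cat]

lemma cat_append (w : ι → List (α × Bool)) (X Y : List (ι × Bool)) :
    cat w (X ++ Y) = cat w X ++ cat w Y := by simp [cat]

/-- the homomorphism sending the generators to the blocks -/
noncomputable def phi (w : ι → List (α × Bool)) : FreeGroup ι →* FreeGroup α :=
  FreeGroup.lift (fun i => FreeGroup.mk (w i))

lemma phi_mk (w : ι → List (α × Bool)) (X : List (ι × Bool)) :
    phi w (FreeGroup.mk X) = FreeGroup.mk (cat w X) := by
  induction X with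
  | nil =>
    have h1 : (FreeGroup.mk ([] : List (ι × Bool))) = 1 := rfl
    have h2 : (FreeGroup.mk ([] : List (α × Bool))) = 1 := rfl
    rw [h1, cat_nil, h2, _root_.map_one]
  | cons c X ih =>
    have h1 : FreeGroup.mk (c :: X) = FreeGroup.mk [c] * FreeGroup.mk X := by rw [mul_mk]; rfl
    rw [h1, _root_.map_mul, ih, cat_cons, ← mul_mk]
    congr 1
    rcases c with ⟨i, b⟩
    cases b
    · have : FreeGroup.mk [(i, false)] = (FreeGroup.of i)⁻¹ := by
        simp [FreeGroup.of, inv_mk, invRev]
      rw [this, _root_.map_inv, phi, FreeGroup.lift_apply_of]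
      simp [blk, inv_mk]
    · have : FreeGroup.mk [(i, true)] = FreeGroup.of i := rfl
      rw [this, phi, FreeGroup.lift_apply_of]
      simp [blk]

structure BW [Fintype α] (w : ι → List (α × Bool)) (t0 : ℕ) : Prop where
  red : ∀ X, IsReduced X → IsReduced (cat w X)
  cnt : ∀ i s, cnt s (w i) = t0
  tint : ∀ i (P : Finset (α × Bool)), 2 ≤ P.card → P.card + 2 ≤ 2 * Fintype.card α →
    t0 + 1 ≤ tint P (w i)

variable [Fintype α]

lemma BW.cnt_cat {w : ι → List (α × Bool)} {t0 : ℕ} (h : BW w t0) (s : α × Bool)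
    (X : List (ι × Bool)) : Malchar.cnt s (cat w X) = t0 * X.length := by
  induction X with
  | nil => simp
  | cons c X ih =>
    rw [cat_cons, cnt_append, ih, List.length_cons, mul_add, mul_one, add_comm]
    congr 1
    unfold blk
    split_ifs
    · exact h.cnt _ _
    · rw [cnt_invRev]; exact h.cnt _ _

lemma BW.tint_cat {w : ι → List (α × Bool)} {t0 : ℕ} (h : BW w t0) {P : Finset (α × Bool)}
    (h1 : 2 ≤ P.card) (h2 : P.card + 2 ≤ 2 * Fintype.card α)
    (X : List (ι × Bool)) : (t0 + 1) * X.length ≤ Malchar.tint P (cat w X) := by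
  induction X with
  | nil => simp
  | cons c X ih =>
    rw [cat_cons]
    have h3 := tint_append P (blk w c) (cat w X)
    have h4 : t0 + 1 ≤ Malchar.tint P (blk w c) := by
      unfold blk
      split_ifs
      · exact h.tint _ _ h1 h2
      · rw [tint_invRev]; exact h.tint _ _ h1 h2
    rw [List.length_cons, mul_add, mul_one]
    omega

lemma phi_pow_word {w : ι → List (α × Bool)} {t0 : ℕ} (h : BW w t0) (W : FreeGroup ι) :
    phi w W = FreeGroup.mk (cat w W.toWord) ∧ IsReduced (cat w W.toWord) := by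
  refine ⟨?_, h.red _ isReduced_toWord⟩
  rw [← phi_mk, mk_toWord]

theorem BW.good {w : ι → List (α × Bool)} {t0 : ℕ} (h : BW w t0) {W : FreeGroup ι} (hW : W ≠ 1) :
    ∃ t, Good (phi w W) t := by
  obtain ⟨l, hl, hlim⟩ := exists_translation hW
  refine ⟨t0 * l, ⟨fun s => ?_, fun P h1 h2 => ?_⟩⟩
  · have ht := tendsto_cr (AI_Star {s}) (phi w W)
    refine tendsto_nhds_unique ht ?_
    have hu : Tendsto (fun k : ℕ => (t0 : ℝ) * (((W ^ k).norm : ℝ) / k)) atTop (𝓝 (t0 * l)) :=
      hlim.const_mul _
    have h3 : Tendsto (fun n : ℕ => (2 : ℝ) / n) atTop (𝓝 0) :=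
      tendsto_const_div_atTop_nhds_zero_nat 2
    have hlo := hu.sub h3
    rw [sub_zero] at hlo
    refine tendsto_of_tendsto_of_tendsto_of_le_of_le hlo hu ?_ ?_
    · intro k
      simp only
      obtain ⟨e1, e2⟩ := phi_pow_word h (W ^ k)
      have h5 := cnt_le_dd s e2
      rw [h.cnt_cat, ← e1, ← norm_def, _root_.map_pow] at h5
      rw [mul_div_assoc', ← sub_div]
      refine div_le_div_of_nonneg_right ?_ (Nat.cast_nonneg k)
      have h6 : ((t0 * (W ^ k).norm : ℕ) : ℝ) ≤ ((dd (Star {s}) (phi w W ^ k) + 2 : ℕ) : ℝ) := by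
        exact_mod_cast h5
      push_cast at h6
      linarith
    · intro k
      simp only
      obtain ⟨e1, e2⟩ := phi_pow_word h (W ^ k)
      have h5 := dd_le_cnt s (cat w (W ^ k).toWord)
      rw [h.cnt_cat, ← e1, ← norm_def, _root_.map_pow] at h5
      rw [mul_div_assoc']
      refine div_le_div_of_nonneg_right ?_ (Nat.cast_nonneg k)
      exact_mod_cast h5
  · have ht := tendsto_cr (AI_Star P) (phi w W)
    have hu : Tendsto (fun k : ℕ => ((t0 : ℝ) + 1) * (((W ^ k).norm : ℝ) / k)) atTop
        (𝓝 ((t0 + 1) * l)) := hlim.const_mul _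
    have h3 : ((t0 : ℝ) + 1) * l ≤ cr (Star P) (phi w W) := by
      refine le_of_tendsto_of_tendsto' hu ht fun k => ?_
      obtain ⟨e1, e2⟩ := phi_pow_word h (W ^ k)
      have h5 := (h.tint_cat h1 h2 (W ^ k).toWord).trans (tint_le_dd P e2)
      rw [← e1, ← norm_def, _root_.map_pow] at h5
      rw [mul_div_assoc']
      refine div_le_div_of_nonneg_right ?_ (Nat.cast_nonneg k)
      exact_mod_cast h5
    nlinarith

/-- injectivity of `phi` -/
theorem BW.injective {w : ι → List (α × Bool)} {t0 : ℕ} (h : BW w t0) (ht0 : 0 < t0)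
    (s : α × Bool) : Function.Injective (phi w) := by
  rw [injective_iff_map_eq_one]
  intro W hW
  obtain ⟨e1, e2⟩ := phi_pow_word h W
  rw [hW] at e1
  have h1 : cat w W.toWord = [] := by
    rw [← toWord_of_red e2, ← e1, toWord_one]
  have h2 := h.cnt_cat s W.toWord
  rw [h1] at h2
  simp only [cnt_nil] at h2
  have h3 : W.toWord.length = 0 := by
    rcases Nat.eq_zero_or_pos W.toWord.length with h4 | h4
    · exact h4
    · have := Nat.mul_pos ht0 h4; omega
  exact toWord_eq_nil_iff.1 (List.length_eq_zero_iff.1 h3)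

/-- Step one: automorphisms carrying a nontrivial element of the subgroup into the subgroup are
signed permutations up to conjugation. -/
theorem BW.rigid {w : ι → List (α × Bool)} {t0 : ℕ} (h : BW w t0) (hn : 2 ≤ Fintype.card α)
    (δ : FreeGroup α ≃* FreeGroup α) {W W' : FreeGroup ι} (hW : W ≠ 1) (hW' : W' ≠ 1)
    (hδ : δ (phi w W) = phi w W') :
    ∃ (z : FreeGroup α) (σ : α × Bool → α × Bool), Function.Bijective σ ∧
      (∀ s, σ (linv s) = linv (σ s)) ∧ ∀ s, δ (lt s) = z * lt (σ s) * z⁻¹ := by
  obtain ⟨t, ht⟩ := h.good hW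
  obtain ⟨t', ht'⟩ := h.good hW'
  have hStarInf : ∀ s : α × Bool, (Star ({s} : Finset (α × Bool))).Infinite := fun s => by
    rw [Star_singleton]; exact Cyl_infinite hn _
  have hStarInf' : ∀ s : α × Bool, ((Star ({s} : Finset (α × Bool)))ᶜ).Infinite := fun s => by
    rw [Star_compl, Set.infinite_smul_set]; exact hStarInf _
  have key : ∀ (ε : FreeGroup α ≃* FreeGroup α) (x : FreeGroup α) (t t' : ℝ), Good x t →
      Good (ε x) t' → ∀ s, t' ≤ cr (ε '' Star {s}) (ε x) ∧
        (cr (ε '' Star {s}) (ε x) = t' → HS (ε '' Star {s})) := by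
    intro ε x t t' _ h2 s
    refine main_lemma' h2 hn ((AI_Star {s}).image ε) ?_ ?_
    · rw [Set.infinite_image_iff ε.injective.injOn]; exact hStarInf s
    · rw [← image_compl_eq ε.bijective, Set.infinite_image_iff ε.injective.injOn]
      exact hStarInf' s
  -- nonempty alphabet
  have hα : 0 < Fintype.card α := by omega
  obtain ⟨a0⟩ := Fintype.card_pos_iff.1 hα
  have h1 : t' ≤ t := by
    have := (key δ _ t t' ht (by rw [hδ]; exact ht') (a0, true)).1
    rwa [cr_image, ht.edge] at this
  have h2 : t ≤ t' := by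
    have hδ' : δ.symm (phi w W') = phi w W := by rw [← hδ]; simp
    have := (key δ.symm _ t' t ht' (by rw [hδ']; exact ht) (a0, true)).1
    rwa [cr_image, ht'.edge] at this
  have htt : t = t' := le_antisymm h2 h1
  refine Malchar.rigid hn δ fun s => ?_
  refine (key δ _ t t' ht (by rw [hδ]; exact ht') s).2 ?_
  rw [cr_image, ht.edge, htt]

end Pool.Agent.Helper2.Malchar
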