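import Pool.Agent.Helper2.Malchar.Rigid

/-!
Crossing numbers of stars in terms of letter and turn counts.
-/

namespace Pool.Agent.Helper2.Malchar

open Set Filter Topology Pointwise FreeGroup

variable {α : Type*} [DecidableEq α]

set_option linter.unusedSectionVars false

/-- number of turns of the word `L` which separate `P` from its complement -/
def tint (P : Finset (α × Bool)) : List (α × Bool) → ℕ
  | [] => 0
  | [_] => 0
  | a :: b :: L => (if (linv a ∈ P ↔ b ∈ P) then 0 else 1) + tint P (b :: L)

/-- number of occurrences of `s` or its inverse -/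
def cnt (s : α × Bool) (L : List (α × Bool)) : ℕ := L.countP (fun a => a = s ∨ a = linv s)

@[simp] lemma cnt_nil (s : α × Bool) : cnt s [] = 0 := rfl

lemma cnt_append (s : α × Bool) (L M : List (α × Bool)) : cnt s (L ++ M) = cnt s L + cnt s M :=
  List.countP_append

lemma cnt_cons (s a : α × Bool) (L : List (α × Bool)) :
    cnt s (a :: L) = cnt s L + if (a = s ∨ a = linv s) then 1 else 0 := by
  unfold cnt; rw [List.countP_cons]; simp

lemma linv_eq_comm {a b : α × Bool} : linv a = b ↔ a = linv b := by
  constructor
  · rintro rfl; simp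
  · rintro rfl; simp

lemma cnt_invRev (s : α × Bool) (L : List (α × Bool)) : cnt s (invRev L) = cnt s L := by
  induction L with
  | nil => simp [invRev]
  | cons a L ih =>
    rw [invRev_cons, cnt_append, ih, cnt_cons s a L]
    congr 1
    have h : invRev [a] = [linv a] := by simp [invRev, linv]
    rw [h, cnt_cons, cnt_nil, zero_add]
    congr 1
    rw [linv_eq_comm, linv_eq_comm, linv_linv]
    exact propext or_comm

lemma tint_append (P : Finset (α × Bool)) (L M : List (α × Bool)) :
    tint P L + tint P M ≤ tint P (L ++ M) := by
  induction L with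
  | nil => simp [tint]
  | cons a L ih =>
    cases L with
    | nil =>
      cases M with
      | nil => simp [tint]
      | cons b M => simp [tint]
    | cons b L =>
      simp only [tint, List.cons_append] at ih ⊢
      omega

lemma tint_snoc (P : Finset (α × Bool)) (L : List (α × Bool)) (a b : α × Bool) :
    tint P (L ++ [a, b]) = tint P (L ++ [a]) + if (linv a ∈ P ↔ b ∈ P) then 0 else 1 := by
  induction L with
  | nil => simp [tint]
  | cons c L ih =>
    cases L with
    | nil => simp [tint]; try omega
    | cons d L =>
      simp only [List.cons_append, tint] at ih ⊢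
      rw [ih]; omega

lemma tint_invRev (P : Finset (α × Bool)) (L : List (α × Bool)) :
    tint P (invRev L) = tint P L := by
  induction L with
  | nil => simp [invRev]
  | cons a L ih =>
    cases L with
    | nil => simp [invRev, tint]
    | cons b L =>
      have h1 : invRev (a :: b :: L) = invRev L ++ [linv b, linv a] := by
        simp [invRev, linv]
      have h2 : invRev (b :: L) = invRev L ++ [linv b] := by
        simp [invRev, linv]
      rw [h1, tint_snoc, ← h2, ih]
      simp only [tint, linv_linv]
      rw [add_comm]
      congr 1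
      by_cases h3 : b ∈ P <;> by_cases h4 : linv a ∈ P <;> simp [h3, h4]

lemma mem_Star_mk {P : Finset (α × Bool)} {a : α × Bool} {L : List (α × Bool)}
    (h : IsReduced (a :: L)) : FreeGroup.mk (a :: L) ∈ Star P ↔ a ∈ P := by
  rw [mem_Star, toWord_of_red h]
  constructor
  · rintro ⟨s, hs, M, hM⟩
    simp only [List.cons.injEq] at hM
    rw [hM.1]; exact hs
  · intro ha; exact ⟨a, ha, L, rfl⟩

lemma isReduced_invRev {L : List (α × Bool)} (h : IsReduced L) : IsReduced (invRev L) := by
  have := isReduced_toWord (x := (FreeGroup.mk L)⁻¹)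
  rwa [toWord_inv, toWord_of_red h] at this

lemma tint_le_aux (P : Finset (α × Bool)) (L : List (α × Bool)) :
    ∀ A : List (α × Bool), IsReduced (A ++ L) → ∃ T : Finset (FreeGroup α), T.card = tint P L ∧
      ∀ x ∈ T, x ∈ bd (Star P) (FreeGroup.mk (A ++ L)) ∧ A.length < x.norm := by
  induction L with
  | nil => intro A _; exact ⟨∅, by simp [tint], by simp⟩
  | cons a L ih =>
    intro A hA
    cases L with
    | nil => exact ⟨∅, by simp [tint], by simp⟩
    | cons b L =>
      obtain ⟨T, hT1, hT2⟩ := ih (A ++ [a]) (by simpa using hA)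
      simp only [List.append_assoc, List.cons_append, List.nil_append, List.length_append,
        List.length_cons, List.length_nil, zero_add] at hT2
      by_cases ht : (linv a ∈ P ↔ b ∈ P)
      · refine ⟨T, by simp [tint, ht, hT1], fun x hx => ⟨(hT2 x hx).1, ?_⟩⟩
        have := (hT2 x hx).2; omega
      · set x : FreeGroup α := (FreeGroup.mk (A ++ [a]))⁻¹ with hx
        have hAr : IsReduced (A ++ [a]) := hA.subw ⟨[], b :: L, by simp⟩
        have hxn : x.norm = A.length + 1 := by
          rw [hx, norm_inv_eq, norm_def, toWord_of_red hAr]; simp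
        have hxT : x ∉ T := by
          intro h; have := (hT2 x h).2; omega
        refine ⟨insert x T, by rw [Finset.card_insert_of_notMem hxT, hT1]; simp [tint, ht]; omega,
          ?_⟩
        intro y hy
        rw [Finset.mem_insert] at hy
        rcases hy with rfl | hy
        · refine ⟨?_, by omega⟩
          rw [mem_bd]
          have h1 : x * FreeGroup.mk (A ++ a :: b :: L) = FreeGroup.mk (b :: L) := by
            have : FreeGroup.mk (A ++ a :: b :: L) = FreeGroup.mk (A ++ [a]) * FreeGroup.mk (b :: L) := by
              rw [mul_mk]; simp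
            rw [this, hx]; group
          have h2 : x = FreeGroup.mk (linv a :: invRev A) := by
            rw [hx, inv_mk]; simp [linv, invRev]
          have h3 : IsReduced (linv a :: invRev A) := by
            have := isReduced_invRev hAr
            rw [invRev_append] at this
            simpa [linv, invRev] using this
          have h4 : IsReduced (b :: L) := hA.subw ⟨A ++ [a], [], by simp⟩
          rw [h1, mem_Star_mk h4, h2, mem_Star_mk h3]
          exact ht
        · refine ⟨(hT2 y hy).1, ?_⟩
          have := (hT2 y hy).2; omega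

variable [Fintype α]

lemma tint_le_dd (P : Finset (α × Bool)) {L : List (α × Bool)} (hL : IsReduced L) :
    tint P L ≤ dd (Star P) (FreeGroup.mk L) := by
  obtain ⟨T, hT1, hT2⟩ := tint_le_aux P L [] (by simpa using hL)
  rw [← hT1, dd, ← ncard_coe_finset]
  exact ncard_le_ncard (fun x hx => (by simpa using (hT2 x hx).1)) (AI_Star P _)

lemma cnt_le_tint (s : α × Bool) (L : List (α × Bool)) :
    ∀ a, IsReduced (a :: L) →
      cnt s (a :: L) ≤ tint {s} (a :: L) + (if a = s then 1 else 0) + 1 := by
  induction L with
  | nil =>
    intro a _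
    rw [cnt_cons, cnt_nil, tint]
    by_cases h : a = s <;> by_cases h' : a = linv s <;> simp [h, h'] 
  | cons b L ih =>
    intro a hab
    have hb : IsReduced (b :: L) := hab.subw ⟨[a], [], by simp⟩
    have hne : b ≠ linv a := isReduced_pair.1 (hab.subw ⟨[], L, by simp⟩)
    have h1 := ih b hb
    rw [cnt_cons, tint]
    simp only [Finset.mem_singleton]
    have e1 : linv a = s ↔ a = linv s := linv_eq_comm
    have hn1 : ¬ (a = linv s ∧ b = s) := by
      rintro ⟨h1, h2⟩; apply hne; rw [h1, h2, linv_linv]
    have hn2 : ¬ (a = s ∧ a = linv s) := by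
      rintro ⟨h1, h2⟩; exact linv_ne s (h2 ▸ h1)
    have g1 : (if (linv a = s ↔ b = s) then 0 else 1) = if (a = linv s ∨ b = s) then 1 else 0 := by
      by_cases c2 : a = linv s
      · have c3 : b ≠ s := fun h => hn1 ⟨c2, h⟩
        have c4 : linv a = s := e1.2 c2
        simp [c2, c3]
      · have c4 : ¬ linv a = s := fun h => c2 (e1.1 h)
        by_cases c3 : b = s
        · simp [c3, c4]
        · simp [c3, c4, c2]
    rw [g1]
    have g2 : ¬ (a = s ∧ a = linv s) := hn2
    split_ifs at h1 ⊢ <;> first | omega | (exfalso; tauto)

lemma same_head {x : FreeGroup α} {a : α × Bool} (hx : x ≠ 1) (hxa : x * lt a ≠ 1) :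
    ∃ c L L', x.toWord = c :: L ∧ (x * lt a).toWord = c :: L' := by
  match hw : x.toWord with
  | [] => exact absurd (toWord_eq_nil_iff.1 hw) hx
  | c :: L =>
    by_cases hr : IsReduced (x.toWord ++ [a])
    · exact ⟨c, L, L ++ [a], rfl, by rw [toWord_mul_lt hr, hw]; rfl⟩
    · rcases List.eq_nil_or_concat x.toWord with h0 | ⟨M, d, h0⟩
      · exact absurd (toWord_eq_nil_iff.1 h0) hx
      rw [List.concat_eq_append] at h0
      have hred : IsReduced (M ++ [d]) := by rw [← h0]; exact isReduced_toWord
      have hc : a = linv d := by
        by_contra hne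
        apply hr
        rw [h0]
        exact hred.append_overlap (isReduced_pair.2 hne) (by simp)
      have hMr : IsReduced M := hred.subw ⟨[], [d], by simp⟩
      have h1 : x * lt a = FreeGroup.mk M := by
        rw [← mk_toWord (x := x), h0, hc, ← mul_mk, mul_assoc]
        have := lt_mul_linv d
        unfold lt at this ⊢
        rw [this, mul_one]
      rw [h1] at hxa ⊢
      rw [toWord_of_red hMr]
      cases M with
      | nil => exact absurd (by rfl) hxa
      | cons e M =>
        rw [h0] at hw
        simp only [List.cons_append, List.cons.injEq] at hw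
        exact ⟨c, L, M, rfl, by rw [hw.1]⟩

lemma bd_Star_singleton (s a : α × Bool) :
    bd (Star {s}) (lt a) ⊆ {x | (x = 1 ∧ a = s) ∨ (x = lt (linv a) ∧ linv a = s)} := by
  intro x hx
  rw [mem_bd] at hx
  by_cases h1 : x = 1
  · left
    refine ⟨h1, ?_⟩
    subst h1
    rw [one_mul] at hx
    have h2 : (1 : FreeGroup α) ∉ Star ({s} : Finset (α × Bool)) := by
      simp [mem_Star]
    have h3 : lt a ∈ Star ({s} : Finset (α × Bool)) := by tauto
    have := (mem_Star_mk (IsReduced.singleton (a := a))).1 h3
    simpa using this
  · by_cases h2 : x * lt a = 1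
    · right
      have h3 : x = lt (linv a) := by
        rw [← lt_inv]; exact eq_inv_of_mul_eq_one_left h2
      refine ⟨h3, ?_⟩
      rw [h2] at hx
      have h4 : (1 : FreeGroup α) ∉ Star ({s} : Finset (α × Bool)) := by
        simp [mem_Star]
      have h5 : lt (linv a) ∈ Star ({s} : Finset (α × Bool)) := by rw [← h3]; tauto
      have := (mem_Star_mk (IsReduced.singleton (a := linv a))).1 h5
      simpa using this
    · exfalso
      obtain ⟨c, L, L', hL, hL'⟩ := same_head h1 h2
      apply hx
      simp only [mem_Star, hL, hL', List.cons.injEq, Finset.mem_singleton, exists_eq_left]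
      constructor
      · rintro ⟨_, h, _⟩; exact ⟨_, h, rfl⟩
      · rintro ⟨_, h, _⟩; exact ⟨_, h, rfl⟩

lemma dd_lt_le (s a : α × Bool) : dd (Star {s}) (lt a) ≤ if (a = s ∨ a = linv s) then 1 else 0 := by
  have h := bd_Star_singleton s a
  unfold dd
  by_cases h1 : a = s
  · have h2 : linv a ≠ s := fun h => linv_ne a (h.trans h1.symm)
    have : bd (Star {s}) (lt a) ⊆ {1} := by
      intro x hx
      rcases h hx with h3 | h3
      · exact h3.1
      · exact absurd h3.2 h2
    simpa [h1] using (ncard_le_ncard this).trans (ncard_singleton _).le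
  · by_cases h2 : a = linv s
    · have : bd (Star {s}) (lt a) ⊆ {lt (linv a)} := by
        intro x hx
        rcases h hx with h3 | h3
        · exact absurd h3.2 h1
        · exact h3.1
      simpa [h2] using (ncard_le_ncard this).trans (ncard_singleton _).le
    · have : bd (Star {s}) (lt a) = ∅ := by
        rw [eq_empty_iff_forall_notMem]
        intro x hx
        rcases h hx with h3 | h3
        · exact h1 h3.2
        · exact h2 (linv_eq_comm.1 h3.2)
      rw [this]; simp

lemma dd_le_cnt (s : α × Bool) (L : List (α × Bool)) :
    dd (Star {s}) (FreeGroup.mk L) ≤ cnt s L := by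
  induction L with
  | nil =>
    have : (FreeGroup.mk ([] : List (α × Bool))) = 1 := rfl
    rw [this]
    unfold dd
    rw [bd_one]; simp
  | cons a L ih =>
    have h1 : FreeGroup.mk (a :: L) = lt a * FreeGroup.mk L := by unfold lt; rw [mul_mk]; rfl
    rw [h1, cnt_cons]
    have := dd_mul_le (AI_Star {s}) (lt a) (FreeGroup.mk L)
    have := dd_lt_le s a
    omega

lemma cnt_le_dd (s : α × Bool) {L : List (α × Bool)} (hL : IsReduced L) :
    cnt s L ≤ dd (Star {s}) (FreeGroup.mk L) + 2 := by
  have h1 := tint_le_dd {s} hL
  cases L with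
  | nil => simp
  | cons a L =>
    have h2 := cnt_le_tint s L a hL
    split_ifs at h2 <;> omega

end Pool.Agent.Helper2.Malchar
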