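import Mathlib

/-!
Crossing numbers of almost invariant subsets of a group, and their submodularity.
-/

namespace Pool.Agent.Helper2.Malchar

open Set Filter Topology Pointwise

variable {G : Type*} [Group G]

/-- The set of `x` such that exactly one of `x`, `x * g` lies in `U`. -/
def bd (U : Set G) (g : G) : Set G := {x | ¬ (x ∈ U ↔ x * g ∈ U)}

/-- Almost invariant sets: every `bd U g` is finite. -/
def AI (U : Set G) : Prop := ∀ g, (bd U g).Finite

/-- the number of elements of `bd U g` -/
noncomputable def dd (U : Set G) (g : G) : ℕ := (bd U g).ncard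

lemma mem_bd {U : Set G} {g x : G} : x ∈ bd U g ↔ ¬ (x ∈ U ↔ x * g ∈ U) := Iff.rfl

lemma bd_one (U : Set G) : bd U 1 = ∅ := by
  ext x; simp [mem_bd]

lemma bd_mul_subset (U : Set G) (g h : G) :
    bd U (g * h) ⊆ bd U g ∪ (fun x => x * g⁻¹) '' bd U h := by
  intro x hx
  by_cases h1 : x ∈ bd U g
  · exact Or.inl h1
  · refine Or.inr ⟨x * g, ?_, by simp⟩
    rw [mem_bd] at hx ⊢
    rw [mem_bd, not_not] at h1
    rw [← h1, mul_assoc]
    exact hx

lemma bd_inv (U : Set G) (g : G) : bd U g⁻¹ = (fun x => x * g) '' bd U g := by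
  ext x
  constructor
  · intro hx
    refine ⟨x * g⁻¹, ?_, by simp⟩
    rw [mem_bd] at hx ⊢
    simp only [inv_mul_cancel_right]
    tauto
  · rintro ⟨y, hy, rfl⟩
    rw [mem_bd] at hy ⊢
    simp only [mul_inv_cancel_right]
    tauto

lemma AI.of_generators {U : Set G} {S : Set G} (hS : Subgroup.closure S = ⊤)
    (h : ∀ s ∈ S, (bd U s).Finite) : AI U := by
  intro g
  have hg : g ∈ Subgroup.closure S := by rw [hS]; trivial
  induction hg using Subgroup.closure_induction with
  | mem x hx => exact h x hx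
  | one => rw [bd_one]; exact finite_empty
  | mul x y _ _ hx hy =>
    exact (hx.union (hy.image _)).subset (bd_mul_subset U x y)
  | inv x _ hx => rw [bd_inv]; exact hx.image _

lemma bd_compl (U : Set G) (g : G) : bd Uᶜ g = bd U g := by
  ext x; simp only [mem_bd, mem_compl_iff]; tauto

lemma AI.compl {U : Set G} (h : AI U) : AI Uᶜ := fun g => by rw [bd_compl]; exact h g

lemma bd_inter_union (U V : Set G) (g : G) :
    bd (U ∩ V) g ∪ bd (U ∪ V) g ⊆ bd U g ∪ bd V g := by
  intro x hx
  simp only [mem_union, mem_bd, mem_inter_iff] at hx ⊢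
  tauto

lemma bd_inter_inter (U V : Set G) (g : G) :
    bd (U ∩ V) g ∩ bd (U ∪ V) g ⊆ bd U g ∩ bd V g := by
  intro x hx
  simp only [mem_union, mem_bd, mem_inter_iff] at hx ⊢
  tauto

lemma AI.inter {U V : Set G} (hU : AI U) (hV : AI V) : AI (U ∩ V) := fun g =>
  ((hU g).union (hV g)).subset (subset_trans subset_union_left (bd_inter_union U V g))

lemma AI.union {U V : Set G} (hU : AI U) (hV : AI V) : AI (U ∪ V) := fun g =>
  ((hU g).union (hV g)).subset (subset_trans subset_union_right (bd_inter_union U V g))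

lemma AI.diff {U V : Set G} (hU : AI U) (hV : AI V) : AI (U \ V) := by
  rw [Set.sdiff_eq]; exact hU.inter hV.compl

lemma bd_smul (a : G) (U : Set G) (g : G) : bd (a • U) g = a • bd U g := by
  ext x
  simp only [mem_bd, mem_smul_set_iff_inv_smul_mem, smul_eq_mul, mul_assoc]

lemma AI.smul {U : Set G} (hU : AI U) (a : G) : AI (a • U) := fun g => by
  rw [bd_smul]; exact (hU g).smul_set

lemma dd_smul (a : G) (U : Set G) (g : G) : dd (a • U) g = dd U g := by
  unfold dd; rw [bd_smul]; exact ncard_smul_set a _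

lemma dd_mul_le {U : Set G} (hU : AI U) (g h : G) : dd U (g * h) ≤ dd U g + dd U h := by
  unfold dd
  refine (ncard_le_ncard (bd_mul_subset U g h) ((hU g).union ((hU h).image _))).trans ?_
  refine (ncard_union_le _ _).trans ?_
  have := ncard_image_le (f := fun x => x * g⁻¹) (hU h)
  omega

lemma dd_inv (U : Set G) (g : G) : dd U g⁻¹ = dd U g := by
  unfold dd; rw [bd_inv]; exact ncard_image_of_injective _ (mul_left_injective g)

lemma dd_compl (U : Set G) (g : G) : dd Uᶜ g = dd U g := by unfold dd; rw [bd_compl]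

lemma dd_submod {U V : Set G} (hU : AI U) (hV : AI V) (g : G) :
    dd (U ∩ V) g + dd (U ∪ V) g ≤ dd U g + dd V g := by
  unfold dd
  rw [← ncard_union_add_ncard_inter _ _ ((hU.inter hV) g) ((hU.union hV) g),
    ← ncard_union_add_ncard_inter _ _ (hU g) (hV g)]
  exact add_le_add (ncard_le_ncard (bd_inter_union U V g) ((hU g).union (hV g)))
    (ncard_le_ncard (bd_inter_inter U V g) ((hU g).subset inter_subset_left))

set_option linter.unusedSectionVars false

/-- equality up to finite sets -/
def AE (U V : Set G) : Prop := (symmDiff U V).Finite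

lemma AE.refl (U : Set G) : AE U U := by simp [AE]

lemma AE.symm {U V : Set G} (h : AE U V) : AE V U := by
  unfold AE at *; rwa [symmDiff_comm]

lemma AE.trans {U V W : Set G} (h : AE U V) (h' : AE V W) : AE U W := by
  unfold AE at *
  exact (h.union h').subset (symmDiff_triangle U V W)

lemma ae_iff {U V : Set G} : AE U V ↔ (U \ V).Finite ∧ (V \ U).Finite := by
  unfold AE; rw [symmDiff_def]; simp only [sup_eq_union, finite_union, ]

lemma AE.of_eq {U V : Set G} (h : U = V) : AE U V := h ▸ AE.refl U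

lemma AE.compl {U V : Set G} (h : AE U V) : AE Uᶜ Vᶜ := by
  unfold AE at *; rwa [compl_symmDiff_compl]

lemma AE.smul {U V : Set G} (h : AE U V) (a : G) : AE (a • U) (a • V) := by
  unfold AE at *
  rw [← smul_set_symmDiff]
  exact h.smul_set

lemma AE.inter {U V U' V' : Set G} (h : AE U V) (h' : AE U' V') : AE (U ∩ U') (V ∩ V') := by
  rw [ae_iff] at *
  constructor
  · refine (h.1.union h'.1).subset ?_
    intro x hx; simp only [Set.mem_sdiff, mem_inter_iff, mem_union] at *; tauto
  · refine (h.2.union h'.2).subset ?_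
    intro x hx; simp only [Set.mem_sdiff, mem_inter_iff, mem_union] at *; tauto

lemma AE.finite_iff {U V : Set G} (h : AE U V) : U.Finite ↔ V.Finite := by
  rw [ae_iff] at h
  constructor
  · intro hU
    refine (hU.union h.2).subset ?_
    intro x hx; simp only [Set.mem_sdiff, mem_union]; tauto
  · intro hV
    refine (hV.union h.1).subset ?_
    intro x hx; simp only [Set.mem_sdiff, mem_union]; tauto

lemma bd_subset_of_ae (U V : Set G) (g : G) :
    bd U g ⊆ bd V g ∪ (symmDiff U V ∪ (fun x => x * g⁻¹) '' symmDiff U V) := by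
  intro x hx
  by_cases h1 : x ∈ symmDiff U V
  · exact Or.inr (Or.inl h1)
  by_cases h2 : x * g ∈ symmDiff U V
  · exact Or.inr (Or.inr ⟨x * g, h2, by simp⟩)
  left
  rw [mem_symmDiff] at h1 h2
  rw [mem_bd] at *
  tauto

lemma dd_le_of_ae {U V : Set G} (hV : AI V) (h : AE U V) (g : G) :
    dd U g ≤ dd V g + 2 * (symmDiff U V).ncard := by
  unfold dd
  refine (ncard_le_ncard (bd_subset_of_ae U V g)
    ((hV g).union (h.union (h.image _)))).trans ?_
  refine (ncard_union_le _ _).trans ?_
  gcongr
  refine (ncard_union_le _ _).trans ?_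
  have := ncard_image_le (f := fun x => x * g⁻¹) h
  omega

lemma AI.of_ae {U V : Set G} (hV : AI V) (h : AE U V) : AI U := fun g =>
  ((hV g).union (h.union (h.image _))).subset (bd_subset_of_ae U V g)

/-- The crossing number of `U` with the axis of `w`. -/
noncomputable def cr (U : Set G) (w : G) : ℝ :=
  limUnder atTop (fun n : ℕ => (dd U (w ^ n) : ℝ) / n)

lemma tendsto_cr {U : Set G} (hU : AI U) (w : G) :
    Tendsto (fun n : ℕ => (dd U (w ^ n) : ℝ) / n) atTop (𝓝 (cr U w)) := by
  have hsub : Subadditive (fun n : ℕ => (dd U (w ^ n) : ℝ)) := by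
    intro m n
    have := dd_mul_le hU (w ^ m) (w ^ n)
    rw [← pow_add] at this
    show (dd U (w ^ (m + n)) : ℝ) ≤ (dd U (w ^ m) : ℝ) + (dd U (w ^ n) : ℝ)
    exact_mod_cast this
  have := hsub.tendsto_lim ⟨0, by
    rintro x ⟨n, rfl⟩
    positivity⟩
  unfold cr
  rw [this.limUnder_eq]
  exact this

lemma cr_le_of_eventually {U V : Set G} (hU : AI U) (hV : AI V) (w w' : G) (C : ℝ)
    (h : ∀ n : ℕ, (dd U (w ^ n) : ℝ) ≤ dd V (w' ^ n) + C) : cr U w ≤ cr V w' := by
  have h1 := tendsto_cr hU w
  have h2 := tendsto_cr hV w'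
  have h3 : Tendsto (fun n : ℕ => (C : ℝ) / n) atTop (𝓝 0) :=
    tendsto_const_div_atTop_nhds_zero_nat C
  have h4 := h2.add h3
  rw [add_zero] at h4
  refine le_of_tendsto_of_tendsto' h1 h4 fun n => ?_
  rw [← add_div]
  exact div_le_div_of_nonneg_right (h n) (Nat.cast_nonneg n)

lemma cr_congr {U V : Set G} (hV : AI V) (h : AE U V) (w : G) : cr U w = cr V w := by
  have hU : AI U := hV.of_ae h
  apply le_antisymm
  · refine cr_le_of_eventually hU hV w w (2 * (symmDiff U V).ncard) fun n => ?_
    exact_mod_cast dd_le_of_ae hV h (w ^ n)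
  · refine cr_le_of_eventually hV hU w w (2 * (symmDiff V U).ncard) fun n => ?_
    exact_mod_cast dd_le_of_ae hU h.symm (w ^ n)

lemma cr_smul (a : G) (U : Set G) (w : G) : cr (a • U) w = cr U w := by
  unfold cr; simp only [dd_smul]

lemma cr_compl (U : Set G) (w : G) : cr Uᶜ w = cr U w := by
  unfold cr; simp only [dd_compl]

lemma cr_submod {U V : Set G} (hU : AI U) (hV : AI V) (w : G) :
    cr (U ∩ V) w + cr (U ∪ V) w ≤ cr U w + cr V w := by
  have h1 := (tendsto_cr (hU.inter hV) w).add (tendsto_cr (hU.union hV) w)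
  have h2 := (tendsto_cr hU w).add (tendsto_cr hV w)
  refine le_of_tendsto_of_tendsto' h1 h2 fun n => ?_
  rw [← add_div, ← add_div]
  refine div_le_div_of_nonneg_right ?_ (Nat.cast_nonneg n)
  exact_mod_cast dd_submod hU hV (w ^ n)

lemma cr_submod' {U V : Set G} (hU : AI U) (hV : AI V) (w : G) :
    cr (U \ V) w + cr (V \ U) w ≤ cr U w + cr V w := by
  have h := cr_submod hU hV.compl w
  rw [cr_compl V] at h
  have e : (U ∪ Vᶜ) = (V \ U)ᶜ := by ext x; simp only [mem_union, mem_compl_iff, Set.mem_sdiff]; tauto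
  rw [e, cr_compl, ← Set.sdiff_eq] at h
  exact h

/-- image of a set under an automorphism -/
lemma bd_image (f : G ≃* G) (U : Set G) (g : G) : bd (f '' U) (f g) = f '' bd U g := by
  ext x
  obtain ⟨y, rfl⟩ := f.surjective x
  have h1 : ∀ z, f z ∈ f '' U ↔ z ∈ U := fun z => f.injective.mem_set_image
  rw [mem_bd, ← map_mul, h1, h1, f.injective.mem_set_image, mem_bd]

lemma AI.image {U : Set G} (hU : AI U) (f : G ≃* G) : AI (f '' U) := by
  intro g
  obtain ⟨h, rfl⟩ := f.surjective g
  rw [bd_image]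
  exact (hU h).image _

lemma dd_image (f : G ≃* G) (U : Set G) (g : G) : dd (f '' U) (f g) = dd U g := by
  unfold dd; rw [bd_image]; exact ncard_image_of_injective _ f.injective

lemma cr_image (f : G ≃* G) (U : Set G) (w : G) : cr (f '' U) (f w) = cr U w := by
  unfold cr; simp only [← map_pow, dd_image]

lemma AE.image {U V : Set G} (h : AE U V) (f : G ≃* G) : AE (f '' U) (f '' V) := by
  unfold AE at *
  rw [← image_symmDiff f.injective]
  exact h.image _

end Pool.Agent.Helper2.Malchar
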