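import Pool.Agent.Helper2.Malchar.Words

/-!
The two words and the verification of the conditions.
-/

namespace Pool.Agent.Helper2.Malchar

open Set Filter Topology Pointwise FreeGroup

set_option linter.unusedSectionVars false

variable {n : ℕ}

/-- a word: two halves separated by the marker -/
def word (ps qs : List (Fin n × Fin n)) : List (Fin n × Bool) := H ps ++ (Rr n ++ H qs)

lemma word_length {ps qs : List (Fin n × Fin n)} (hp : ps.length = n * (n - 1))
    (hq : qs.length = n * (n - 1)) : (word ps qs).length = 2 * (16 * (n * (n - 1))) + 3 * n := by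
  unfold word
  rw [List.length_append, List.length_append, length_H, length_H, Rr_length, hp, hq]
  ring

lemma PP_word {ps qs : List (Fin n × Fin n)} (hp : ∀ p ∈ ps, p.1 ≠ p.2)
    (hq : ∀ p ∈ qs, p.1 ≠ p.2) : PP (word ps qs) :=
  (PP_H hp).append ((PP_Rr n).append (PP_H hq))

/-- positions in a word -/
lemma word_get_left {ps qs : List (Fin n × Fin n)} {q : ℕ} (hq : q < (H ps).length) :
    (word ps qs)[q]? = (H ps)[q]? := by
  unfold word; rw [List.getElem?_append_left hq]

lemma word_get_mid {ps qs : List (Fin n × Fin n)} {q : ℕ} (hq : q < 3 * n) :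
    (word ps qs)[(H ps).length + q]? = (Rr n)[q]? := by
  unfold word
  rw [List.getElem?_append_right (by omega), List.getElem?_append_left (by rw [Rr_length]; omega)]
  congr 1; omega

lemma word_get_right {ps qs : List (Fin n × Fin n)} (q : ℕ) :
    (word ps qs)[(H ps).length + 3 * n + q]? = (H qs)[q]? := by
  unfold word
  rw [List.getElem?_append_right (by omega), List.getElem?_append_right (by rw [Rr_length]; omega),
    Rr_length]
  congr 1; omega

theorem word_run {ps qs : List (Fin n × Fin n)} (hps : ∀ p ∈ ps, p.1 ≠ p.2)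
    (hqs : ∀ p ∈ qs, p.1 ≠ p.2) (hne : 0 < n)
    (h1 : (H ps)[(H ps).length - 1]? ≠ some (⟨0, hne⟩, true))
    (h2 : (H qs)[0]? ≠ some (⟨n - 1, by omega⟩, true)) (q : ℕ) :
    Run3 (word ps qs) q ↔ ∃ c, c < n ∧ q = (H ps).length + 3 * c := by
  set o := (H ps).length with ho
  have hN1 := NR_H hps
  have hN2 := NR_H hqs
  constructor
  · rintro ⟨a, e1, e2, e3⟩
    rcases Nat.lt_or_ge q o with hq | hq
    · exfalso
      rcases Nat.lt_or_ge (q + 2) o with hq2 | hq2
      · rw [word_get_left (by omega)] at e1 e2 e3
        exact hN1.1 q ⟨a, e1, e2, e3⟩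
      · have h0 : (Rr n)[0]? = some (⟨0, hne⟩, true) := by
          have := Rr_getElem? (⟨0, hne⟩ : Fin n) 0 (by omega)
          simpa using this
        rcases Nat.lt_or_ge (q + 1) o with hq3 | hq3
        · have hq4 : q + 2 = o + 0 := by omega
          rw [hq4, word_get_mid (by omega), h0] at e3
          have hq5 : q + 1 = o - 1 := by omega
          rw [hq5, word_get_left (by omega), ← e3] at e2
          exact h1 e2
        · have hq4 : q + 1 = o + 0 := by omega
          rw [hq4, word_get_mid (by omega), h0] at e2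
          have hq5 : q = o - 1 := by omega
          rw [hq5, word_get_left (by omega), ← e2] at e1
          exact h1 e1
    · rcases Nat.lt_or_ge q (o + 3 * n) with hq2 | hq2
      · obtain ⟨i, rfl⟩ : ∃ i, q = o + i := ⟨q - o, by omega⟩
        set c := i / 3 with hc
        set r := i % 3 with hr
        have hi : i = 3 * c + r := (Nat.div_add_mod i 3).symm
        have hcn : c < n := by omega
        refine ⟨c, hcn, ?_⟩
        by_contra hcon
        have hr3 : r < 3 := Nat.mod_lt _ (by omega)
        have hr0 : 0 < r := by omega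
        -- a equals (c, true) and the next letter
        have f1 : a = (⟨c, hcn⟩, true) := by
          have g := Rr_getElem? (⟨c, hcn⟩ : Fin n) r hr3
          simp only at g
          rw [← hi] at g
          rw [word_get_mid (by omega), g] at e1
          exact (Option.some.inj e1).symm
        have f2 : (word ps qs)[o + (3 * c + 3)]? = some a := by
          rcases (show r = 1 ∨ r = 2 by omega) with h | h
          · rw [← e3]; congr 1; omega
          · rw [← e2]; congr 1; omega
        rcases Nat.lt_or_ge (c + 1) n with hc1 | hc1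
        · have g := Rr_getElem? (⟨c + 1, hc1⟩ : Fin n) 0 (by omega)
          simp only [add_zero] at g
          rw [word_get_mid (by omega), show 3 * c + 3 = 3 * (c + 1) by ring, g, f1] at f2
          simp at f2
        · have hcn' : c = n - 1 := by omega
          have : o + (3 * c + 3) = o + 3 * n + 0 := by omega
          rw [this, word_get_right, f1] at f2
          apply h2
          rw [f2]
          simp [hcn']
      · exfalso
        obtain ⟨i, rfl⟩ : ∃ i, q = o + 3 * n + i := ⟨q - (o + 3 * n), by omega⟩
        apply hN2.1 i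
        rw [word_get_right] at e1
        refine ⟨a, e1, ?_, ?_⟩
        · rw [← e2, ← word_get_right (ps := ps)]; congr 1
        · rw [← e3, ← word_get_right (ps := ps)]; congr 1
  · rintro ⟨c, hc, rfl⟩
    refine ⟨(⟨c, hc⟩, true), ?_, ?_, ?_⟩
    · rw [word_get_mid (by omega)]
      have := Rr_getElem? (⟨c, hc⟩ : Fin n) 0 (by omega)
      simpa using this
    · rw [show o + 3 * c + 1 = o + (3 * c + 1) by ring, word_get_mid (by omega)]
      exact Rr_getElem? (⟨c, hc⟩ : Fin n) 1 (by omega)
    · rw [show o + 3 * c + 2 = o + (3 * c + 2) by ring, word_get_mid (by omega)]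
      exact Rr_getElem? (⟨c, hc⟩ : Fin n) 2 (by omega)

lemma cnt_word (s : Fin n × Bool) {p q p' q' : Fin n × Fin n} (hp : p.1 ≠ p.2) (hq : q.1 ≠ q.2)
    (hpq : p ≠ q) (hp' : p'.1 ≠ p'.2) (hq' : q'.1 ≠ q'.2) (hpq' : p' ≠ q') :
    cnt s (word (full p q) (full p' q')) = 32 * (n - 1) + 3 := by
  unfold word
  rw [cnt_append, cnt_append, cnt_full s hp hq hpq, cnt_full s hp' hq' hpq', cnt_Rr]
  ring

lemma tint_word (P : Finset (Fin n × Bool)) (h1 : 2 ≤ P.card) (h2 : P.card + 2 ≤ 2 * n)
    (hn : 3 ≤ n) {p q p' q' : Fin n × Fin n} (hp : p.1 ≠ p.2) (hq : q.1 ≠ q.2)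
    (hpq : p ≠ q) (hp' : p'.1 ≠ p'.2) (hq' : q'.1 ≠ q'.2) (hpq' : p' ≠ q') :
    32 * (n - 1) + 3 + 1 ≤ tint P (word (full p q) (full p' q')) := by
  unfold word
  have e1 := tint_append P (H (full p q)) (Rr n ++ H (full p' q'))
  have e2 := tint_append P (Rr n) (H (full p' q'))
  have e3 := tint_H P (full p q)
  have e4 := tint_H P (full p' q')
  rw [sum_full _ hp hq hpq] at e3
  rw [sum_full _ hp' hq' hpq'] at e4
  have e5 := sum_S4 P h1 h2
  omega

end Pool.Agent.Helper2.Malchar
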