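import Pool.Agent.Helper2.Malchar.Marker

/-!
Conjugation and overlaps of reduced words; the abstract form of the theorem.
-/

namespace Pool.Agent.Helper2.Malchar

open Set Filter Topology Pointwise FreeGroup

variable {α : Type*} [DecidableEq α] {ι : Type*} [DecidableEq ι]

set_option linter.unusedSectionVars false

lemma isReduced_cons {s : α × Bool} {L : List (α × Bool)} (hL : IsReduced L)
    (h : ∀ M, L ≠ linv s :: M) : IsReduced (s :: L) := by
  cases L with
  | nil => exact IsReduced.singleton
  | cons a L =>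
    have h1 : a ≠ linv s := fun h' => h L (by rw [h'])
    exact (show IsReduced ([s] ++ [a]) from isReduced_pair.2 h1).append_overlap
      (by simpa using hL) (by simp)

/-- left multiplication of a reduced word -/
lemma left_mul (Z : List (α × Bool)) : ∀ L : List (α × Bool), IsReduced L →
    ∃ A L' A', L = A ++ L' ∧ A.length ≤ Z.length ∧
      FreeGroup.mk A' = FreeGroup.mk Z * FreeGroup.mk A ∧ IsReduced (A' ++ L') := by
  induction Z using List.reverseRecOn with
  | nil =>
    intro L hL
    exact ⟨[], L, [], by simp, by simp, by simp [mul_mk], by simpa using hL⟩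
  | append_singleton Z s ih =>
    intro L hL
    by_cases hc : ∃ M, L = linv s :: M
    · obtain ⟨M, rfl⟩ := hc
      have hM : IsReduced M := hL.subw ⟨[linv s], [], by simp⟩
      obtain ⟨A, L', A', h1, h2, h3, h4⟩ := ih M hM
      refine ⟨linv s :: A, L', A', by rw [h1]; simp, by simp; omega, ?_, h4⟩
      rw [h3]
      have e1 : FreeGroup.mk (Z ++ [s]) = FreeGroup.mk Z * lt s := by unfold lt; rw [mul_mk]
      have e2 : FreeGroup.mk (linv s :: A) = lt (linv s) * FreeGroup.mk A := by
        unfold lt; rw [mul_mk]; rfl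
      rw [e1, e2, mul_assoc, ← mul_assoc (lt s), lt_mul_linv, one_mul]
    · have hsL : IsReduced (s :: L) := isReduced_cons hL (fun M h => hc ⟨M, h⟩)
      have e1 : FreeGroup.mk (Z ++ [s]) = FreeGroup.mk Z * lt s := by unfold lt; rw [mul_mk]
      obtain ⟨A, L', A', h1, h2, h3, h4⟩ := ih (s :: L) hsL
      cases A with
      | nil =>
        refine ⟨[], L, A' ++ [s], by simp, by simp, ?_, ?_⟩
        · rw [e1, ← mul_mk, h3]
          have : FreeGroup.mk ([] : List (α × Bool)) = 1 := rfl
          rw [this, mul_one, mul_one]; rfl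
        · rw [List.nil_append] at h1
          rw [← h1] at h4
          simpa using h4
      | cons a A =>
        simp only [List.cons_append, List.cons.injEq] at h1
        obtain ⟨rfl, h1⟩ := h1
        refine ⟨A, L', A', h1, by simp at h2 ⊢; omega, ?_, h4⟩
        rw [h3, e1, mul_assoc]
        congr 1

lemma overlap {z : FreeGroup α} {L R : List (α × Bool)} (hL : IsReduced L) (hR : IsReduced R)
    (h : z * FreeGroup.mk L * z⁻¹ = FreeGroup.mk R) (hlen : 2 * z.norm ≤ L.length) :
    ∃ A B C A' C', L = A ++ B ++ C ∧ R = A' ++ B ++ C' ∧ A.length ≤ z.norm ∧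
      C.length ≤ z.norm ∧ z * FreeGroup.mk A = FreeGroup.mk A' := by
  obtain ⟨A, L', A', h1, h2, h3, h4⟩ := left_mul z.toWord L hL
  rw [mk_toWord] at h3
  obtain ⟨C0, M, C0', g1, g2, g3, g4⟩ := left_mul z.toWord (invRev (A' ++ L')) (isReduced_invRev h4)
  rw [mk_toWord] at g3
  have e1 : A' ++ L' = invRev M ++ invRev C0 := by
    have := congrArg invRev g1
    rw [invRev_invRev, invRev_append] at this
    exact this
  have e2 : FreeGroup.mk R = FreeGroup.mk (invRev M ++ invRev C0') := by
    have e3 : FreeGroup.mk (A' ++ L') = z * FreeGroup.mk L := by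
      rw [← mul_mk, h3, h1, ← mul_mk]; group
    have e4 : FreeGroup.mk (invRev C0) = (FreeGroup.mk C0)⁻¹ := by rw [inv_mk]
    have e5 : FreeGroup.mk (invRev C0') = (FreeGroup.mk C0')⁻¹ := by rw [inv_mk]
    rw [← h, ← e3, e1, ← mul_mk, ← mul_mk, e4, e5, g3]
    group
  have hred : IsReduced (invRev M ++ invRev C0') := by
    rw [← invRev_append]; exact isReduced_invRev g4
  have e6 : R = invRev M ++ invRev C0' := by
    rw [← toWord_of_red hR, e2, toWord_of_red hred]
  -- the piece L' is longer than C0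
  have hL'len : C0.length ≤ L'.length := by
    have := congrArg List.length h1
    rw [List.length_append] at this
    rw [← norm_def] at h2 g2
    omega
  -- L' ends with invRev C0
  obtain ⟨B, hB1, hB2⟩ : ∃ B, L' = B ++ invRev C0 ∧ invRev M = A' ++ B := by
    have hsuf : invRev C0 <:+ L' := by
      have s1 : invRev C0 <:+ A' ++ L' := ⟨invRev M, e1.symm⟩
      have s2 : L' <:+ A' ++ L' := ⟨A', rfl⟩
      exact List.suffix_of_suffix_length_le s1 s2 (by rw [invRev_length]; exact hL'len)
    obtain ⟨B, hB⟩ := hsuf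
    refine ⟨B, hB.symm, ?_⟩
    rw [← hB, ← List.append_assoc] at e1
    exact (List.append_cancel_right e1).symm
  refine ⟨A, B, invRev C0, A', invRev C0', ?_, ?_, h2, ?_, h3.symm⟩
  · rw [h1, hB1]; simp
  · rw [e6, hB2]
  · rw [invRev_length]; exact g2

/-- blocks are distinguished up to signed permutations -/
def Distinct (w : ι → List (α × Bool)) : Prop :=
  ∀ (c d : ι × Bool) (σ : α × Bool → α × Bool), Function.Injective σ →
    (∀ s, σ (linv s) = linv (σ s)) → (blk w c).map σ = blk w d → ∀ s, σ s = s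

lemma isReduced_map {σ : α × Bool → α × Bool} (hσ : Function.Injective σ)
    (hσ' : ∀ s, σ (linv s) = linv (σ s)) {L : List (α × Bool)} (hL : IsReduced L) :
    IsReduced (L.map σ) := by
  induction L with
  | nil => simp
  | cons a L ih =>
    have h1 : IsReduced L := hL.subw ⟨[a], [], by simp⟩
    rw [List.map_cons]
    refine isReduced_cons (ih h1) ?_
    intro M hM
    cases L with
    | nil => simp at hM
    | cons b L =>
      simp only [List.map_cons, List.cons.injEq] at hM
      have h2 : b ≠ linv a := isReduced_pair.1 (hL.subw ⟨[], L, by simp⟩)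
      rw [← hσ'] at hM
      exact h2 (hσ hM.1)

theorem final_abstract [Fintype α] {w : ι → List (α × Bool)} {t0 o n : ℕ} (h : BW w t0)
    (hm : Marked w o n) (hd : Distinct w) (hn : 2 ≤ Fintype.card α)
    (δ : FreeGroup α ≃* FreeGroup α) {W W' : FreeGroup ι} (hW : W ≠ 1) (hW' : W' ≠ 1)
    (hδ : δ (phi w W) = phi w W') :
    ∃ Y : FreeGroup ι, ∀ x, δ x = phi w Y * x * (phi w Y)⁻¹ := by
  obtain ⟨z, σ, hσ, hσ', hz⟩ := h.rigid hn δ hW hW' hδ
  have hδL : ∀ L : List (α × Bool), δ (FreeGroup.mk L) = z * FreeGroup.mk (L.map σ) * z⁻¹ := by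
    intro L
    induction L with
    | nil =>
      have : FreeGroup.mk ([] : List (α × Bool)) = 1 := rfl
      rw [List.map_nil, this, _root_.map_one]; group
    | cons a L ih =>
      have e1 : FreeGroup.mk (a :: L) = lt a * FreeGroup.mk L := by unfold lt; rw [mul_mk]; rfl
      have e2 : FreeGroup.mk ((a :: L).map σ) = lt (σ a) * FreeGroup.mk (L.map σ) := by
        unfold lt; rw [mul_mk]; rfl
      rw [e1, _root_.map_mul, ih, hz, e2]; group
  set k := 2 * z.norm + 3 with hk
  set X := (W ^ k).toWord with hX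
  set X' := (W' ^ k).toWord with hX'
  have hXk : k ≤ X.length := norm_pow_ge hW k
  have hXr : IsReduced X := isReduced_toWord
  have hXr' : IsReduced X' := isReduced_toWord
  have e1 : phi w (W ^ k) = FreeGroup.mk (cat w X) := by rw [← phi_mk, hX, mk_toWord]
  have e2 : phi w (W' ^ k) = FreeGroup.mk (cat w X') := by rw [← phi_mk, hX', mk_toWord]
  have e3 : z * FreeGroup.mk ((cat w X).map σ) * z⁻¹ = FreeGroup.mk (cat w X') := by
    rw [← hδL, ← e1, ← e2, _root_.map_pow, _root_.map_pow, _root_.map_pow, hδ]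
  have hl1 : 1 ≤ 2 * o + 3 * n := by have := hm.hn; omega
  have hlenX : ((cat w X).map σ).length = (2 * o + 3 * n) * X.length := by
    rw [List.length_map, hm.len_cat]
  obtain ⟨A, B, C, A', C', h1, h2, h3, h4, h5⟩ := overlap
    (isReduced_map hσ.1 hσ' (h.red X hXr)) (h.red X' hXr') e3 (by rw [hlenX]; nlinarith)
  -- choose a block in the middle
  set j := z.norm + 1 with hj
  have hjX : j < X.length := by omega
  obtain ⟨c, Y1, Y2, hY, hY1⟩ : ∃ c Y1 Y2, X = Y1 ++ c :: Y2 ∧ Y1.length = j := by
    refine ⟨X[j], X.take j, X.drop (j + 1), ?_, ?_⟩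
    · conv_lhs => rw [← List.take_append_drop j X]
      rw [List.drop_eq_getElem_cons hjX]
    · rw [List.length_take, min_eq_left hjX.le]
  have hY2 : z.norm + 1 ≤ Y2.length := by
    have := congrArg List.length hY
    rw [List.length_append, List.length_cons, hY1] at this
    omega
  have e4 : (cat w X).map σ = (cat w Y1).map σ ++ ((blk w c).map σ ++ (cat w Y2).map σ) := by
    conv_lhs => rw [hY]
    rw [cat_append, cat_cons, List.map_append, List.map_append]
  have l1 : ((cat w Y1).map σ).length = (2 * o + 3 * n) * j := by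
    rw [List.length_map, hm.len_cat, hY1]
  have l2 : ((cat w Y2).map σ).length = (2 * o + 3 * n) * Y2.length := by
    rw [List.length_map, hm.len_cat]
  -- A is a prefix of the first part
  obtain ⟨B1, hB1⟩ : ∃ B1, (cat w Y1).map σ = A ++ B1 := by
    have p1 : A <+: (cat w X).map σ := ⟨B ++ C, by rw [h1]; simp⟩
    have p2 : (cat w Y1).map σ <+: (cat w X).map σ := ⟨_, e4.symm⟩
    obtain ⟨B1, hB1⟩ := List.prefix_of_prefix_length_le p1 p2 (by rw [l1]; nlinarith)
    exact ⟨B1, hB1.symm⟩
  obtain ⟨B2, hB2⟩ : ∃ B2, (cat w Y2).map σ = B2 ++ C := by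
    have p1 : C <:+ (cat w X).map σ := ⟨A ++ B, h1.symm⟩
    have p2 : (cat w Y2).map σ <:+ (cat w X).map σ :=
      ⟨(cat w Y1).map σ ++ (blk w c).map σ, by rw [e4]; simp⟩
    obtain ⟨B2, hB2⟩ := List.suffix_of_suffix_length_le p1 p2 (by rw [l2]; nlinarith)
    exact ⟨B2, hB2.symm⟩
  have hB : B = B1 ++ (blk w c).map σ ++ B2 := by
    rw [e4, hB1, hB2] at h1
    have h6 : A ++ (B1 ++ (blk w c).map σ ++ B2 ++ C) = A ++ (B ++ C) := by
      rw [← List.append_assoc A B C, ← h1]; simp
    have h7 := List.append_cancel_left h6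
    exact (List.append_cancel_right h7).symm
  have hR : cat w X' = (A' ++ B1) ++ (blk w c).map σ ++ (B2 ++ C') := by
    rw [h2, hB]; simp
  obtain ⟨X1, d, X2, _, hX1, hcd⟩ := hm.marker hσ.1 hR
  have hid : ∀ s, σ s = s := hd c d σ hσ.1 hσ' hcd
  have hmapid : ∀ L : List (α × Bool), L.map σ = L := by
    intro L
    conv_rhs => rw [← List.map_id L]
    exact List.map_congr_left (fun s _ => hid s)
  have hzval : z = phi w (FreeGroup.mk X1 * (FreeGroup.mk Y1)⁻¹) := by
    rw [_root_.map_mul, _root_.map_inv, phi_mk, phi_mk]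
    have e5 : FreeGroup.mk (cat w Y1) = FreeGroup.mk A * FreeGroup.mk B1 := by
      rw [mul_mk, ← hB1, hmapid]
    rw [← hX1, e5, ← mul_mk, ← h5]
    group
  refine ⟨FreeGroup.mk X1 * (FreeGroup.mk Y1)⁻¹, fun x => ?_⟩
  rw [← hzval]
  have := hδL x.toWord
  rwa [hmapid, mk_toWord] at this

end Pool.Agent.Helper2.Malchar
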