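import Pool.Agent.Helper2.Malchar.Tree

/-!
The lower bound for crossing numbers of almost invariant sets in a free group.
-/

namespace Pool.Agent.Helper2.Malchar

open Set Filter Topology Pointwise FreeGroup

variable {α : Type*} [DecidableEq α] [Fintype α]

set_option linter.unusedSectionVars false

lemma Star_compl (s : α × Bool) : (Star ({s} : Finset (α × Bool)))ᶜ = lt s • Star {linv s} := by
  ext x
  rw [mem_smul_set_iff_inv_smul_mem, smul_eq_mul, mem_Star, mem_compl_iff, mem_Star, lt_inv]
  simp only [Finset.mem_singleton, exists_eq_left]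
  constructor
  · intro h
    have hr : IsReduced (linv s :: x.toWord) := by
      match hx : x.toWord with
      | [] => exact IsReduced.singleton
      | a :: L =>
        have h1 : IsReduced (a :: L) := by rw [← hx]; exact isReduced_toWord
        have h2 : a ≠ s := by rintro rfl; exact h ⟨L, hx⟩
        have h3 : IsReduced [linv s, a] := by rw [isReduced_pair, linv_linv]; exact h2
        exact (show IsReduced ([linv s] ++ [a]) from h3).append_overlap (by simpa using h1) (by simp)
    refine ⟨x.toWord, ?_⟩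
    have : lt (linv s) * x = FreeGroup.mk (linv s :: x.toWord) := by
      conv_lhs => rw [← mk_toWord (x := x)]
      unfold lt
      rw [mul_mk]; rfl
    rw [this, toWord_of_red hr]
  · rintro ⟨L, hL⟩ ⟨M, hM⟩
    have h1 : lt (linv s) * x = FreeGroup.mk M := by
      have : x = lt s * FreeGroup.mk M := by
        rw [← mk_toWord (x := x), hM]; unfold lt; rw [mul_mk]; rfl
      rw [this, ← mul_assoc, lt_linv_mul, one_mul]
    have hMr : IsReduced (s :: M) := by rw [← hM]; exact isReduced_toWord
    have hMr' : IsReduced M := hMr.subw ⟨[s], [], by simp⟩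
    rw [h1, toWord_of_red hMr'] at hL
    rw [hL] at hMr
    have : IsReduced [s, linv s] := hMr.subw ⟨[], L, by simp⟩
    rw [isReduced_pair] at this
    exact this rfl

/-- half spaces, up to finite sets -/
def HS (U : Set (FreeGroup α)) : Prop := ∃ (g : FreeGroup α) (s : α × Bool), AE U (g • Star {s})

lemma HS.compl {U : Set (FreeGroup α)} (h : HS U) : HS Uᶜ := by
  obtain ⟨g, s, h⟩ := h
  refine ⟨g * lt s, linv s, ?_⟩
  rw [mul_smul, ← Star_compl, smul_set_compl]
  exact h.compl

lemma HS.of_ae {U V : Set (FreeGroup α)} (h : HS V) (h' : AE U V) : HS U := by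
  obtain ⟨g, s, h⟩ := h
  exact ⟨g, s, h'.trans h⟩

structure Good (w : FreeGroup α) (t : ℝ) : Prop where
  edge : ∀ s : α × Bool, cr (Star {s}) w = t
  star : ∀ P : Finset (α × Bool), 2 ≤ P.card → P.card + 2 ≤ 2 * Fintype.card α →
    t < cr (Star P) w

lemma HS.cr_eq {U : Set (FreeGroup α)} {w : FreeGroup α} {t : ℝ} (hw : Good w t) (h : HS U) :
    cr U w = t := by
  obtain ⟨g, s, h⟩ := h
  rw [cr_congr ((AI_Star _).smul g) h, cr_smul, hw.edge]

open Classical in
/-- letters which may follow `g` -/
noncomputable def outs (g : FreeGroup α) : Finset (α × Bool) :=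
  Finset.univ.filter (fun s => IsReduced (g.toWord ++ [s]))

lemma mem_outs {g : FreeGroup α} {s : α × Bool} : s ∈ outs g ↔ IsReduced (g.toWord ++ [s]) := by
  classical
  simp [outs]

lemma outs_one : outs (1 : FreeGroup α) = Finset.univ := by
  ext s; simp [mem_outs]

lemma outs_ne_one {g : FreeGroup α} (hg : g ≠ 1) :
    ∃ c, outs g = Finset.univ.erase c ∧ ∀ s, s ∈ outs g ↔ s ≠ c := by
  rcases List.eq_nil_or_concat g.toWord with h0 | ⟨M, c, h0⟩
  · exact absurd (toWord_eq_nil_iff.1 h0) hg
  · rw [List.concat_eq_append] at h0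
    have key : ∀ s, s ∈ outs g ↔ s ≠ linv c := by
      intro s
      rw [mem_outs, h0]
      have hr : IsReduced (M ++ [c]) := by rw [← h0]; exact isReduced_toWord
      constructor
      · intro h
        have : IsReduced [c, s] := h.subw ⟨M, [], by simp⟩
        exact isReduced_pair.1 this
      · intro h
        exact hr.append_overlap (isReduced_pair.2 h) (by simp)
    refine ⟨linv c, ?_, key⟩
    ext s
    rw [key]; simp

/-- decomposition of a set inside a cylinder all of whose children are pure -/
lemma ae_inter_Cyl {g : FreeGroup α} {A : Set (FreeGroup α)} {Q : Finset (α × Bool)}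
    (hQ : Q ⊆ outs g) (h1 : ∀ s ∈ Q, (Cyl (g * lt s) \ A).Finite)
    (h2 : ∀ s ∈ outs g, s ∉ Q → (A ∩ Cyl (g * lt s)).Finite) :
    AE (A ∩ Cyl g) (g • Star Q) := by
  rw [ae_iff]
  have hQ' : ∀ s ∈ Q, IsReduced (g.toWord ++ [s]) := fun s hs => mem_outs.1 (hQ hs)
  constructor
  · have hfin : ({g} ∪ ⋃ s ∈ (outs g \ Q), (A ∩ Cyl (g * lt s))).Finite := by
      refine (finite_singleton g).union ?_
      refine Set.Finite.biUnion (Finset.finite_toSet _) ?_
      intro s hs
      rw [Finset.mem_coe, Finset.mem_sdiff] at hs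
      exact h2 s hs.1 hs.2
    refine hfin.subset ?_
    rintro x ⟨⟨hxA, hxg⟩, hxn⟩
    rw [mem_smul_Star hQ'] at hxn
    obtain ⟨L, hL⟩ := mem_Cyl.1 hxg
    cases L with
    | nil =>
      left
      rw [List.append_nil] at hL
      exact toWord_injective hL
    | cons s L =>
      right
      have hs : IsReduced (g.toWord ++ [s]) := by
        have : IsReduced (g.toWord ++ s :: L) := by rw [← hL]; exact isReduced_toWord
        exact this.subw ⟨[], L, by simp⟩
      have hsQ : s ∉ Q := fun h => hxn ⟨s, h, L, hL⟩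
      simp only [mem_iUnion]
      exact ⟨s, Finset.mem_sdiff.2 ⟨mem_outs.2 hs, hsQ⟩, hxA, (mem_Cyl_mul_lt hs).2 ⟨L, hL⟩⟩
  · have hfin : (⋃ s ∈ Q, (Cyl (g * lt s) \ A)).Finite :=
      Set.Finite.biUnion (Finset.finite_toSet _) (fun s hs => h1 s hs)
    refine hfin.subset ?_
    rintro x ⟨hx, hxn⟩
    rw [mem_smul_Star hQ'] at hx
    obtain ⟨s, hs, L, hL⟩ := hx
    simp only [mem_iUnion]
    refine ⟨s, hs, (mem_Cyl_mul_lt (hQ' s hs)).2 ⟨L, hL⟩, fun hA => hxn ⟨hA, ?_⟩⟩
    exact mem_Cyl.2 ⟨_, hL⟩

lemma Split_compl (U : Set (FreeGroup α)) : Split Uᶜ = Split U := by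
  ext g
  have e1 : Uᶜ ∩ Cyl g = Cyl g \ U := by
    ext x; simp only [mem_inter_iff, mem_compl_iff, Set.mem_sdiff]; tauto
  have e2 : Cyl g \ Uᶜ = U ∩ Cyl g := by
    ext x; simp only [mem_inter_iff, mem_compl_iff, Set.mem_sdiff]; tauto
  show (Uᶜ ∩ Cyl g).Infinite ∧ (Cyl g \ Uᶜ).Infinite ↔ _
  rw [e1, e2]
  exact and_comm

lemma Split_union {U : Set (FreeGroup α)} {g : FreeGroup α} (hg : g ∈ Split U) :
    Split (U ∪ Cyl g) ⊆ Split U \ {g} := by
  rintro h ⟨h1, h2⟩
  have hne : ¬ (Cyl h ⊆ Cyl g) := by
    intro hsub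
    apply h2
    convert finite_empty
    ext x
    simp only [Set.mem_sdiff, mem_union, mem_empty_iff_false, iff_false, not_and, not_not]
    intro hx; right; exact hsub hx
  refine ⟨⟨?_, ?_⟩, ?_⟩
  · by_cases hx : (Cyl g ∩ Cyl h).Nonempty
    · obtain ⟨x, hx1, hx2⟩ := hx
      rcases Cyl_subset_or x hx1 hx2 with h3 | h3
      · exact absurd (Cyl_mono h3) hne
      · exact hg.1.mono (inter_subset_inter_right _ (Cyl_mono h3))
    · rw [not_nonempty_iff_eq_empty] at hx
      convert h1 using 1
      rw [union_inter_distrib_right, hx, union_empty]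
  · refine h2.mono ?_
    intro x hx
    exact ⟨hx.1, fun hU => hx.2 (Or.inl hU)⟩
  · rintro rfl
    exact hne subset_rfl

/-- cylinders have crossing number `t`. -/
lemma AI_HS_Cyl {g : FreeGroup α} (hg : g ≠ 1) :
    AI (Cyl g) ∧ HS (Cyl g) := by
  obtain ⟨c, hc, hc'⟩ := outs_ne_one hg
  have h1 : AE (univ ∩ Cyl g) (g • Star (outs g)) := by
    apply ae_inter_Cyl subset_rfl
    · intro s _; simp
    · intro s hs hs'; exact absurd hs hs'
  rw [univ_inter] at h1
  refine ⟨((AI_Star _).smul g).of_ae h1, ?_⟩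
  refine HS.of_ae ?_ h1
  have h2 : AE (Star (outs g)) (Star {c})ᶜ := by
    rw [ae_iff]
    constructor
    · convert finite_empty
      ext x
      simp only [Set.mem_sdiff, mem_Star, mem_compl_iff, not_not, Finset.mem_singleton,
        exists_eq_left, mem_empty_iff_false, iff_false, not_and, not_exists]
      rintro ⟨s, hs, L, hL⟩ M hM
      rw [hL] at hM
      simp only [List.cons.injEq] at hM
      exact (hc' s).1 hs hM.1
    · refine (finite_singleton (1 : FreeGroup α)).subset ?_
      rintro x ⟨hx1, hx2⟩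
      simp only [mem_Star, mem_compl_iff, Finset.mem_singleton, exists_eq_left] at hx1 hx2
      match hx : x.toWord with
      | [] => exact toWord_eq_nil_iff.1 hx
      | s :: L =>
        exfalso
        apply hx2
        refine ⟨s, (hc' s).2 ?_, L, hx⟩
        rintro rfl
        exact hx1 ⟨L, hx⟩
  refine HS.of_ae ?_ (h2.smul g)
  rw [smul_set_compl]
  exact HS.compl ⟨g, c, AE.refl _⟩

theorem main_lemma {w : FreeGroup α} {t : ℝ} (hw : Good w t) (hn : 2 ≤ Fintype.card α) :
    ∀ (k : ℕ) (U : Set (FreeGroup α)), AI U → (Split U).ncard = k → U.Infinite → Uᶜ.Infinite →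
      HS U ∨ t < cr U w := by
  classical
  intro k
  induction k using Nat.strong_induction_on with
  | _ k ih =>
  intro U hU hk hinf hinf'
  have hcard : Fintype.card (α × Bool) = 2 * Fintype.card α := by
    rw [Fintype.card_prod, Fintype.card_bool, mul_comm]
  -- weaker form of the induction hypothesis
  have ih' : ∀ U' : Set (FreeGroup α), AI U' → (Split U').ncard < k → U'.Infinite → U'ᶜ.Infinite →
      t ≤ cr U' w := by
    intro U' h1 h2 h3 h4
    rcases ih _ h2 U' h1 rfl h3 h4 with h | h
    · exact (h.cr_eq hw).ge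
    · exact h.le
  have hne : (Split U).Nonempty := by
    refine ⟨1, ?_, ?_⟩
    · rw [Cyl_one, inter_univ]; exact hinf
    · rw [Cyl_one, ← compl_eq_univ_sdiff]; exact hinf'
  obtain ⟨g, hg, hmax⟩ := Set.exists_max_image (Split U) (fun x => x.norm) (Split_finite hU) hne
  have hchild : ∀ s ∈ outs g, g * lt s ∉ Split U := by
    intro s hs h
    have h1 := hmax _ h
    simp only [norm_def, toWord_mul_lt (mem_outs.1 hs), List.length_append,
      List.length_singleton] at h1
    omega
  set O := outs g with hO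
  set P := O.filter (fun s => (U ∩ Cyl (g * lt s)).Infinite) with hP
  have hPO : P ⊆ O := Finset.filter_subset _ _
  have hP1 : ∀ s ∈ P, (Cyl (g * lt s) \ U).Finite := by
    intro s hs
    rw [hP, Finset.mem_filter] at hs
    by_contra h
    exact hchild s hs.1 ⟨hs.2, h⟩
  have hP2 : ∀ s ∈ O, s ∉ P → (U ∩ Cyl (g * lt s)).Finite := by
    intro s hs hsP
    by_contra h
    exact hsP (Finset.mem_filter.2 ⟨hs, h⟩)
  have hA1 : AE (U ∩ Cyl g) (g • Star P) := ae_inter_Cyl hPO hP1 hP2
  have hA2 : AE (Uᶜ ∩ Cyl g) (g • Star (O \ P)) := by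
    apply ae_inter_Cyl Finset.sdiff_subset
    · intro s hs
      rw [Finset.mem_sdiff] at hs
      convert hP2 s hs.1 hs.2 using 1
      ext x; simp only [mem_inter_iff, mem_compl_iff, Set.mem_sdiff]; tauto
    · intro s hs hs'
      rw [Finset.mem_sdiff, not_and, not_not] at hs'
      convert hP1 s (hs' hs) using 1
      ext x; simp only [mem_inter_iff, mem_compl_iff, Set.mem_sdiff]; tauto
  have hStar0 : (Star (∅ : Finset (α × Bool))) = ∅ := by
    ext x; simp [mem_Star]
  have hPne : 1 ≤ P.card := by
    rw [Nat.one_le_iff_ne_zero, Ne, Finset.card_eq_zero]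
    intro h
    rw [h, hStar0, smul_set_empty] at hA1
    exact hg.1 (hA1.finite_iff.2 finite_empty)
  have hP'ne : 1 ≤ (O \ P).card := by
    rw [Nat.one_le_iff_ne_zero, Ne, Finset.card_eq_zero]
    intro h
    rw [h, hStar0, smul_set_empty] at hA2
    apply hg.2
    convert hA2.finite_iff.2 finite_empty using 1
    ext x; simp only [mem_inter_iff, mem_compl_iff, Set.mem_sdiff]; tauto
  have hcardO : P.card + (O \ P).card = O.card := by
    rw [add_comm]; exact Finset.card_sdiff_add_card_eq_card hPO
  -- a set almost equal to a translated star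
  have fin : ∀ (U' : Set (FreeGroup α)) (Q : Finset (α × Bool)), AE U' (g • Star Q) → 1 ≤ Q.card →
      Q.card + 2 ≤ 2 * Fintype.card α → HS U' ∨ t < cr U' w := by
    intro U' Q hAE h1 h2
    rcases Nat.lt_or_ge Q.card 2 with h3 | h3
    · obtain ⟨s, hs⟩ := Finset.card_eq_one.1 (show Q.card = 1 by omega)
      left; exact ⟨g, s, hs ▸ hAE⟩
    · right
      rw [cr_congr ((AI_Star _).smul g) hAE, cr_smul]
      exact hw.star Q h3 h2
  by_cases hg1 : g = 1
  · -- the root
    have hOu : O = Finset.univ := by rw [hO, hg1, outs_one]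
    have hUeq : U ∩ Cyl g = U := by rw [hg1, Cyl_one, inter_univ]
    have hUeq' : Uᶜ ∩ Cyl g = Uᶜ := by rw [hg1, Cyl_one, inter_univ]
    rw [hUeq] at hA1
    rw [hUeq'] at hA2
    have hOc : O.card = 2 * Fintype.card α := by rw [hOu, Finset.card_univ, hcard]
    rcases Nat.lt_or_ge (O \ P).card 2 with h3 | h3
    · rcases fin _ _ hA2 hP'ne (by omega) with h | h
      · left; simpa using h.compl
      · right; rwa [cr_compl] at h
    · exact fin _ _ hA1 hPne (by omega)
  · obtain ⟨c, hc, hc'⟩ := outs_ne_one hg1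
    have hOc : O.card + 1 = 2 * Fintype.card α := by
      rw [hO, hc, Finset.card_erase_of_mem (Finset.mem_univ _), Finset.card_univ, hcard]; omega
    obtain ⟨hVAI, hVHS⟩ := AI_HS_Cyl hg1
    have hVt := hVHS.cr_eq hw
    by_cases hB1 : (U \ Cyl g).Finite
    · -- U almost inside the cylinder
      have : AE U (U ∩ Cyl g) := by
        rw [ae_iff]
        constructor
        · convert hB1 using 1
          ext x; simp only [Set.mem_sdiff, mem_inter_iff]; tauto
        · convert finite_empty
          ext x; simp only [Set.mem_sdiff, mem_inter_iff, mem_empty_iff_false]; tauto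
      exact fin _ _ (this.trans hA1) hPne (by omega)
    by_cases hB2 : (Uᶜ \ Cyl g).Finite
    · have : AE Uᶜ (Uᶜ ∩ Cyl g) := by
        rw [ae_iff]
        constructor
        · convert hB2 using 1
          ext x; simp only [Set.mem_sdiff, mem_inter_iff]; tauto
        · convert finite_empty
          ext x; simp only [Set.mem_sdiff, mem_inter_iff, mem_empty_iff_false]; tauto
      rcases fin _ _ (this.trans hA2) hP'ne (by omega) with h | h
      · left; simpa using h.compl
      · right; rwa [cr_compl] at h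
    right
    rcases Nat.lt_or_ge P.card 2 with h3 | h3
    · -- use U \ V
      have hsub := cr_submod' hU hVAI w
      have e1 : Cyl g \ U = Uᶜ ∩ Cyl g := by
        ext x; simp only [mem_inter_iff, mem_compl_iff, Set.mem_sdiff]; tauto
      have h4 : t < cr (Cyl g \ U) w := by
        rw [e1, cr_congr ((AI_Star _).smul g) hA2, cr_smul]
        exact hw.star _ (by omega) (by omega)
      have e2 : U \ Cyl g = (Uᶜ ∪ Cyl g)ᶜ := by
        ext x; simp only [mem_union, mem_compl_iff, Set.mem_sdiff]; tauto
      have hsp : (Split (U \ Cyl g)).ncard < k := by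
        rw [e2, Split_compl, ← hk]
        have h5 := Split_union (U := Uᶜ) (g := g) (by rw [Split_compl]; exact hg)
        rw [Split_compl] at h5
        refine ncard_lt_ncard ?_ (Split_finite hU)
        refine ⟨h5.trans sdiff_subset, fun h6 => ?_⟩
        exact (h5 (h6 hg)).2 rfl
      have h7 : t ≤ cr (U \ Cyl g) w := by
        refine ih' _ (hU.diff hVAI) hsp hB1 ?_
        refine hg.1.mono ?_
        rintro x ⟨_, hx⟩ hx2
        exact hx2.2 hx
      linarith
    · have hsub := cr_submod hU hVAI w
      have h4 : t < cr (U ∩ Cyl g) w := by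
        rw [cr_congr ((AI_Star _).smul g) hA1, cr_smul]
        exact hw.star _ (by omega) (by omega)
      have hsp : (Split (U ∪ Cyl g)).ncard < k := by
        rw [← hk]
        have h5 := Split_union (U := U) (g := g) hg
        refine ncard_lt_ncard ?_ (Split_finite hU)
        refine ⟨h5.trans sdiff_subset, fun h6 => ?_⟩
        exact (h5 (h6 hg)).2 rfl
      have h7 : t ≤ cr (U ∪ Cyl g) w := by
        refine ih' _ (hU.union hVAI) hsp (hinf.mono subset_union_left) ?_
        refine Set.Infinite.mono ?_ hB2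
        rintro x ⟨hx1, hx2⟩ hx3
        rcases hx3 with h | h
        · exact hx1 h
        · exact hx2 h
      linarith

theorem main_lemma' {w : FreeGroup α} {t : ℝ} (hw : Good w t) (hn : 2 ≤ Fintype.card α)
    {U : Set (FreeGroup α)} (hU : AI U) (h1 : U.Infinite) (h2 : Uᶜ.Infinite) :
    t ≤ cr U w ∧ (cr U w = t → HS U) := by
  rcases main_lemma hw hn _ U hU rfl h1 h2 with h | h
  · exact ⟨(h.cr_eq hw).ge, fun _ => h⟩
  · exact ⟨h.le, fun h' => absurd h' h.ne'⟩

end Pool.Agent.Helper2.Malchar
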