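import Pool.Agent.Helper2.Malchar.Verify

/-!
The subgroup generated by the two explicit words is malcharacteristic and free of rank two.
-/

namespace Pool.Agent.Helper2.Malchar

open Set Filter Topology Pointwise FreeGroup

set_option linter.unusedSectionVars false

variable {n : ℕ} (hn : 3 ≤ n)

lemma ww_ne (i : Fin 2) : ww hn i ≠ [] := by
  have h : ∀ i, (ww hn i).length ≠ 0 := by
    intro i
    fin_cases i
    · show (ww hn 0).length ≠ 0
      rw [(shape0 hn).len]; omega
    · show (ww hn 1).length ≠ 0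
      rw [(shape1 hn).len]; omega
  intro h'
  apply h i
  rw [h']; rfl

lemma head?_eq (L : List (Fin n × Bool)) : L.head? = L[0]? := List.head?_eq_getElem?

lemma getLast?_eq (L : List (Fin n × Bool)) : L.getLast? = L[L.length - 1]? :=
  List.getLast?_eq_getElem?

lemma ww_BW : BW (ww hn) (32 * (n - 1) + 3) := by
  refine ⟨?_, ?_, ?_⟩
  · apply red_of_PP
    · intro i
      fin_cases i
      · exact (shape0 hn).pp
      · exact (shape1 hn).pp
    · exact ww_ne hn
    · intro i j hij
      rw [head?_eq, head?_eq]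
      fin_cases i <;> fin_cases j
      · exact absurd rfl hij
      · show (ww hn 0)[0]? ≠ (ww hn 1)[0]?
        rw [(shape0 hn).first, (shape1 hn).first]; simp
      · show (ww hn 1)[0]? ≠ (ww hn 0)[0]?
        rw [(shape0 hn).first, (shape1 hn).first]; simp
      · exact absurd rfl hij
    · intro i j hij
      rw [getLast?_eq, getLast?_eq]
      fin_cases i <;> fin_cases j
      · exact absurd rfl hij
      · show (ww hn 0)[(ww hn 0).length - 1]? ≠ (ww hn 1)[(ww hn 1).length - 1]?
        rw [(shape0 hn).last, (shape1 hn).last]; simp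
      · show (ww hn 1)[(ww hn 1).length - 1]? ≠ (ww hn 0)[(ww hn 0).length - 1]?
        rw [(shape0 hn).last, (shape1 hn).last]; simp
      · exact absurd rfl hij
  · intro i s
    fin_cases i
    · exact (shape0 hn).cnt s
    · exact (shape1 hn).cnt s
  · intro i P h1 h2
    rw [Fintype.card_fin] at h2
    fin_cases i
    · exact (shape0 hn).tint P h1 h2
    · exact (shape1 hn).tint P h1 h2

lemma ww_Marked : Marked (ww hn) (16 * (n * (n - 1))) n := by
  refine ⟨?_, ?_, ?_, by omega⟩
  · intro i
    fin_cases i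
    · exact (shape0 hn).len
    · exact (shape1 hn).len
  · intro i q
    fin_cases i
    · exact (shape0 hn).run q
    · exact (shape1 hn).run q
  · have h1 : n - 1 ≤ n * (n - 1) := Nat.le_mul_of_pos_left _ (by omega)
    omega

/-- letters of a block -/
lemma map_get {σ : Fin n × Bool → Fin n × Bool} {L M : List (Fin n × Bool)} (h : L.map σ = M)
    {q : ℕ} {a : Fin n × Bool} (ha : L[q]? = some a) : M[q]? = some (σ a) := by
  rw [← h, List.getElem?_map, ha]; rfl

/-- letters of the inverse of a word with a given shape -/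
lemma inv_shape {L : List (Fin n × Bool)} {h l : Fin n} (hL : Shape L h l) :
    (invRev L)[0]? = some (h, false) ∧ (invRev L)[1]? = some (l, false) ∧
      (invRev L)[16 * (n * (n - 1))]? = some (⟨n - 1, by omega⟩, false) := by
  have hlen := hL.len
  refine ⟨?_, ?_, ?_⟩
  · rw [invRev_getElem? L (by omega), Nat.sub_zero, hL.last]; rfl
  · rw [invRev_getElem? L (by omega), show L.length - 1 - 1 = L.length - 2 by omega, hL.last2]; rfl
  · rw [invRev_getElem? L (by omega)]
    have h1 := hL.mid2 ⟨n - 1, by omega⟩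
    simp only at h1
    rw [show L.length - 1 - 16 * (n * (n - 1)) = 16 * (n * (n - 1)) + 3 * (n - 1) + 2 by omega, h1]
    rfl

lemma blk_cases (d : Fin 2 × Bool) : d = (0, true) ∨ d = (1, true) ∨ d = (0, false) ∨
    d = (1, false) := by
  rcases d with ⟨i, b⟩
  fin_cases i <;> cases b <;> simp

lemma distinct_pos (i : Fin 2) (d : Fin 2 × Bool) (σ : Fin n × Bool → Fin n × Bool)
    (hσ' : ∀ s, σ (linv s) = linv (σ s)) (h : (ww hn i).map σ = blk (ww hn) d) :
    d = (i, true) := by
  have s0 := shape0 hn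
  have s1 := shape1 hn
  have i0 := inv_shape hn s0
  have i1 := inv_shape hn s1
  have m0 := s0.mid ⟨0, by omega⟩
  have m1 := s1.mid ⟨0, by omega⟩
  simp only [mul_zero, add_zero] at m0 m1
  have b1 : blk (ww hn) (0, true) = ww hn 0 := rfl
  have b2 : blk (ww hn) (1, true) = ww hn 1 := rfl
  have b3 : blk (ww hn) (0, false) = invRev (ww hn 0) := rfl
  have b4 : blk (ww hn) (1, false) = invRev (ww hn 1) := rfl
  have hi : i = 0 ∨ i = 1 := by fin_cases i <;> simp
  rcases hi with rfl | rfl
  · have e1 := map_get h s0.first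
    have e2 := map_get h m0
    rw [← e1] at e2
    rcases blk_cases d with rfl | rfl | rfl | rfl
    · rfl
    · rw [b2, m1, s1.first] at e2
      simp [Fin.ext_iff] at e2
    · rw [b3, i0.1, i0.2.2] at e2
      simp [Fin.ext_iff] at e2
      omega
    · rw [b4, i1.1, i1.2.2] at e2
      simp [Fin.ext_iff] at e2
      omega
  · have e1 := map_get h s1.second
    have e2 := map_get h m1
    have e3 : σ (⟨0, by omega⟩, false) = linv (σ (⟨0, by omega⟩, true)) := by
      rw [← hσ']; rfl
    rw [e3] at e1
    have e4 : (blk (ww hn) d)[1]? = ((blk (ww hn) d)[16 * (n * (n - 1))]?).map linv := by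
      rw [e1, e2]; rfl
    rcases blk_cases d with rfl | rfl | rfl | rfl
    · rw [b1, s0.second, m0] at e4
      simp [linv, Fin.ext_iff] at e4
    · rfl
    · rw [b3, i0.2.1, i0.2.2] at e4
      simp [linv] at e4
    · rw [b4, i1.2.1, i1.2.2] at e4
      simp [linv] at e4

lemma invRev_map {σ : Fin n × Bool → Fin n × Bool} (hσ' : ∀ s, σ (linv s) = linv (σ s))
    (L : List (Fin n × Bool)) : invRev (L.map σ) = (invRev L).map σ := by
  unfold invRev
  rw [List.map_reverse, List.map_map, List.map_map]
  congr 1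
  apply List.map_congr_left
  intro a _
  exact (hσ' a).symm

lemma ww_Distinct : Distinct (ww hn) := by
  intro c d σ _ hσ' h
  -- reduce to a positive block
  obtain ⟨i, e, hie⟩ : ∃ (i : Fin 2) (e : Fin 2 × Bool), (ww hn i).map σ = blk (ww hn) e := by
    rcases c with ⟨i, b⟩
    cases b
    · refine ⟨i, (d.1, !d.2), ?_⟩
      have h1 := congrArg invRev h
      rw [invRev_map hσ'] at h1
      have h2 : invRev (blk (ww hn) (i, false)) = ww hn i := by
        show invRev (invRev (ww hn i)) = ww hn i
        exact invRev_invRev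
      rw [h2] at h1
      rw [h1]
      rcases d with ⟨j, b⟩
      cases b
      · show invRev (invRev (ww hn j)) = ww hn j
        exact invRev_invRev
      · rfl
    · exact ⟨i, d, h⟩
  have he := distinct_pos hn i e σ hσ' hie
  subst he
  have hfix : (ww hn i).map σ = (ww hn i).map id := by rw [hie, List.map_id]; rfl
  have hmem : ∀ c : Fin n, (c, true) ∈ ww hn i := by
    intro c
    have hi : i = 0 ∨ i = 1 := by fin_cases i <;> simp
    rcases hi with rfl | rfl
    · exact List.mem_of_getElem? ((shape0 hn).mid c)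
    · exact List.mem_of_getElem? ((shape1 hn).mid c)
  have h1 : ∀ c : Fin n, σ (c, true) = (c, true) := fun c => List.map_inj_left.1 hfix _ (hmem c)
  rintro ⟨c, b⟩
  cases b
  · have := hσ' (c, true)
    rw [h1] at this
    exact this
  · exact h1 c

include hn in
theorem malchar : ∃ M : Subgroup (FreeGroup (Fin n)), Nonempty (FreeGroup (Fin 2) ≃* M) ∧
    ∀ δ : FreeGroup (Fin n) ≃* FreeGroup (Fin n), M.map δ.toMonoidHom ⊓ M ≠ ⊥ →
      ∃ m ∈ M, ∀ x, δ x = m * x * m⁻¹ := by
  classical
  have hinj := (ww_BW hn).injective (by omega) (⟨0, by omega⟩, true)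
  refine ⟨(phi (ww hn)).range, ⟨MonoidHom.ofInjective hinj⟩, ?_⟩
  intro δ hδ
  rw [Ne, Subgroup.eq_bot_iff_forall] at hδ
  push Not at hδ
  obtain ⟨y, hy, hy1⟩ := hδ
  obtain ⟨hy2, hy3⟩ := Subgroup.mem_inf.1 hy
  obtain ⟨x, hx, hxy⟩ := hy2
  obtain ⟨W, rfl⟩ := hx
  obtain ⟨W', rfl⟩ := hy3
  have hW' : W' ≠ 1 := by rintro rfl; exact hy1 (_root_.map_one _)
  have hxy' : δ (phi (ww hn) W) = phi (ww hn) W' := hxy
  have hW : W ≠ 1 := by
    rintro rfl
    rw [_root_.map_one, _root_.map_one] at hxy'
    exact hy1 hxy'.symm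
  obtain ⟨Y, hY⟩ := final_abstract (ww_BW hn) (ww_Marked hn) (ww_Distinct hn)
    (by rw [Fintype.card_fin]; omega) δ hW hW' hxy'
  exact ⟨phi (ww hn) Y, ⟨Y, rfl⟩, hY⟩

end Pool.Agent.Helper2.Malchar
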