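import Pool.Agent.Helper2.Malchar.Blocks

/-!
Recognizing blocks in long words.
-/

namespace Pool.Agent.Helper2.Malchar

open Set Filter Topology Pointwise FreeGroup

variable {α : Type*} [DecidableEq α] {ι : Type*} [DecidableEq ι]

set_option linter.unusedSectionVars false

/-- three equal consecutive letters at position `q` -/
def Run3 {β : Type*} (y : List β) (q : ℕ) : Prop :=
  ∃ a, y[q]? = some a ∧ y[q + 1]? = some a ∧ y[q + 2]? = some a

lemma Run3.lt_length {β : Type*} {y : List β} {q : ℕ} (h : Run3 y q) : q + 2 < y.length := by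
  obtain ⟨a, _, _, h⟩ := h
  exact (List.getElem?_eq_some_iff.1 h).1

lemma Run3_map {β γ : Type*} (f : β → γ) (hf : Function.Injective f) (y : List β) (q : ℕ) :
    Run3 (y.map f) q ↔ Run3 y q := by
  unfold Run3
  simp only [List.getElem?_map, Option.map_eq_some_iff]
  constructor
  · rintro ⟨a, ⟨b1, h1, e1⟩, ⟨b2, h2, e2⟩, ⟨b3, h3, e3⟩⟩
    have e12 : b1 = b2 := hf (e1.trans e2.symm)
    have e13 : b1 = b3 := hf (e1.trans e3.symm)
    subst e12; subst e13
    exact ⟨b1, h1, h2, h3⟩
  · rintro ⟨b, h1, h2, h3⟩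
    exact ⟨f b, ⟨b, h1, rfl⟩, ⟨b, h2, rfl⟩, ⟨b, h3, rfl⟩⟩

lemma invRev_getElem? (L : List (α × Bool)) {q : ℕ} (hq : q < L.length) :
    (invRev L)[q]? = (L[L.length - 1 - q]?).map linv := by
  unfold invRev
  rw [List.getElem?_reverse (by simpa using hq)]
  simp only [List.length_map, List.getElem?_map]
  rfl

lemma Run3_invRev (L : List (α × Bool)) (q : ℕ) :
    Run3 (invRev L) q ↔ q + 2 < L.length ∧ Run3 L (L.length - 3 - q) := by
  constructor
  · intro h
    have hl := h.lt_length
    rw [invRev_length] at hl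
    refine ⟨hl, ?_⟩
    obtain ⟨a, h1, h2, h3⟩ := h
    rw [invRev_getElem? L (by omega), Option.map_eq_some_iff] at h1 h2 h3
    obtain ⟨b1, h1, e1⟩ := h1
    obtain ⟨b2, h2, e2⟩ := h2
    obtain ⟨b3, h3, e3⟩ := h3
    have e12 : b1 = b2 := linv_inj (e1.trans e2.symm)
    have e13 : b1 = b3 := linv_inj (e1.trans e3.symm)
    subst e12; subst e13
    refine ⟨b1, ?_, ?_, ?_⟩
    · rw [← h3]; congr 1; omega
    · rw [← h2]; congr 1; omega
    · rw [← h1]; congr 1; omega
  · rintro ⟨hl, a, h1, h2, h3⟩
    refine ⟨linv a, ?_, ?_, ?_⟩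
    · rw [invRev_getElem? L (by omega), show L.length - 1 - q = L.length - 3 - q + 2 by omega, h3]
      rfl
    · rw [invRev_getElem? L (by omega),
        show L.length - 1 - (q + 1) = L.length - 3 - q + 1 by omega, h2]
      rfl
    · rw [invRev_getElem? L (by omega), show L.length - 1 - (q + 2) = L.length - 3 - q by omega, h1]
      rfl

/-- the marker condition -/
structure Marked (w : ι → List (α × Bool)) (o n : ℕ) : Prop where
  len : ∀ i, (w i).length = 2 * o + 3 * n
  run : ∀ i q, Run3 (w i) q ↔ ∃ c, c < n ∧ q = o + 3 * c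
  ho : 3 * (n - 1) ≤ o
  hn : 2 ≤ n

lemma Marked.len_blk {w : ι → List (α × Bool)} {o n : ℕ} (h : Marked w o n) (c : ι × Bool) :
    (blk w c).length = 2 * o + 3 * n := by
  unfold blk
  split_ifs
  · exact h.len _
  · rw [invRev_length]; exact h.len _

lemma Marked.run_blk {w : ι → List (α × Bool)} {o n : ℕ} (h : Marked w o n) (c : ι × Bool)
    (q : ℕ) : Run3 (blk w c) q ↔ ∃ c, c < n ∧ q = o + 3 * c := by
  unfold blk
  split_ifs
  · exact h.run _ _
  · rw [Run3_invRev, h.run, h.len]
    have hn := h.hn
    constructor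
    · rintro ⟨h1, c, hc, h2⟩
      exact ⟨n - 1 - c, by omega, by omega⟩
    · rintro ⟨c, hc, h2⟩
      exact ⟨by omega, n - 1 - c, by omega, by omega⟩

lemma Marked.len_cat {w : ι → List (α × Bool)} {o n : ℕ} (h : Marked w o n)
    (X : List (ι × Bool)) : (cat w X).length = (2 * o + 3 * n) * X.length := by
  induction X with
  | nil => simp
  | cons c X ih =>
    rw [cat_cons, List.length_append, ih, h.len_blk, List.length_cons, mul_add, mul_one, add_comm]

lemma Marked.cat_getElem? {w : ι → List (α × Bool)} {o n : ℕ} (h : Marked w o n) :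
    ∀ (X : List (ι × Bool)) (j : ℕ) (d : ι × Bool) (q : ℕ), X[j]? = some d → q < 2 * o + 3 * n →
      (cat w X)[(2 * o + 3 * n) * j + q]? = (blk w d)[q]? := by
  intro X
  induction X with
  | nil => intro j d q hd; simp at hd
  | cons c X ih =>
    intro j d q hd hq
    rw [cat_cons]
    cases j with
    | zero =>
      simp only [List.getElem?_cons_zero, Option.some.injEq] at hd
      subst hd
      rw [mul_zero, zero_add, List.getElem?_append_left (by rw [h.len_blk]; exact hq)]
    | succ j =>
      rw [List.getElem?_cons_succ] at hd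
      rw [List.getElem?_append_right (by rw [h.len_blk, mul_add]; omega), h.len_blk]
      rw [← ih j d q hd hq]
      congr 1
      rw [mul_add]; omega

theorem Marked.marker {w : ι → List (α × Bool)} {o n : ℕ} (h : Marked w o n)
    {σ : α × Bool → α × Bool} (hσ : Function.Injective σ) {X : List (ι × Bool)} {c : ι × Bool}
    {R1 R2 : List (α × Bool)} (hR : cat w X = R1 ++ (blk w c).map σ ++ R2) :
    ∃ X1 d X2, X = X1 ++ d :: X2 ∧ R1 = cat w X1 ∧ (blk w c).map σ = blk w d := by
  obtain ⟨hnn, hoo⟩ := (⟨h.hn, h.ho⟩ : 2 ≤ n ∧ 3 * (n - 1) ≤ o)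
  set l := 2 * o + 3 * n with hl
  have hlpos : 0 < l := by omega
  have lc : ∀ X : List (ι × Bool), (cat w X).length = l * X.length := fun X => h.len_cat X
  have lb : ∀ c : ι × Bool, (blk w c).length = l := fun c => h.len_blk c
  have cg : ∀ (X : List (ι × Bool)) (j : ℕ) (d : ι × Bool) (q : ℕ), X[j]? = some d → q < l →
      (cat w X)[l * j + q]? = (blk w d)[q]? := fun X j d q => h.cat_getElem? X j d q
  set y := (blk w c).map σ with hy
  have hylen : y.length = l := by rw [hy, List.length_map, lb]
  have hyrun : ∀ q, Run3 y q ↔ ∃ c, c < n ∧ q = o + 3 * c := by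
    intro q; rw [hy, Run3_map σ hσ, h.run_blk]
  have hlen : R1.length + l + R2.length = l * X.length := by
    have := congrArg List.length hR
    rw [lc, List.length_append, List.length_append, hylen] at this
    omega
  have hyR : ∀ q, q < l → y[q]? = (cat w X)[R1.length + q]? := by
    intro q hq
    rw [hR, List.getElem?_append_left (by rw [List.length_append, hylen]; omega),
      List.getElem?_append_right (by omega)]
    congr 1; omega
  set j := R1.length / l with hj
  set r := R1.length % l with hr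
  have hjr : R1.length = l * j + r := (Nat.div_add_mod _ _).symm
  have hrl : r < l := Nat.mod_lt _ hlpos
  have hjX : j < X.length := by
    by_contra hcon
    push Not at hcon
    have := Nat.mul_le_mul_left l hcon
    omega
  obtain ⟨d, hd⟩ : ∃ d, X[j]? = some d := ⟨X[j], List.getElem?_eq_getElem hjX⟩
  have hy' : ∀ q, q + r < l → y[q]? = (blk w d)[q + r]? := by
    intro q hq
    rw [hyR q (by omega), ← cg X j d (q + r) hd hq]
    congr 1; omega
  have hr0 : r = 0 := by
    by_contra hrne
    have hrpos : 0 < r := Nat.pos_of_ne_zero hrne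
    have hjX2 : j + 1 < X.length := by
      by_contra hcon
      push Not at hcon
      have h1 := Nat.mul_le_mul_left l hcon
      rw [mul_add] at h1
      omega
    obtain ⟨d2, hd2⟩ : ∃ d2, X[j + 1]? = some d2 := ⟨X[j + 1], List.getElem?_eq_getElem hjX2⟩
    have hy'' : ∀ q, q < r → y[q + (l - r)]? = (blk w d2)[q]? := by
      intro q hq
      rw [hyR _ (by omega), ← cg X (j + 1) d2 q hd2 (by omega)]
      congr 1
      rw [mul_add, mul_one]; omega
    have t1 : ∀ q, r ≤ q → Run3 (blk w d) q → Run3 y (q - r) := by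
      intro q hq hrun
      have hlt := hrun.lt_length
      rw [lb] at hlt
      obtain ⟨a, h1, h2, h3⟩ := hrun
      refine ⟨a, ?_, ?_, ?_⟩
      · rw [hy' _ (by omega), ← h1]; congr 1; omega
      · rw [hy' _ (by omega), ← h2]; congr 1; omega
      · rw [hy' _ (by omega), ← h3]; congr 1; omega
    have t2 : ∀ q, q + 2 < r → Run3 (blk w d2) q → Run3 y (q + (l - r)) := by
      intro q hq hrun
      obtain ⟨a, h1, h2, h3⟩ := hrun
      refine ⟨a, ?_, ?_, ?_⟩
      · rw [hy'' _ (by omega), ← h1]
      · rw [← h2, ← hy'' _ (by omega)]; congr 1; omega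
      · rw [← h3, ← hy'' _ (by omega)]; congr 1; omega
    rcases Nat.lt_or_ge (o + 3 * (n - 1)) r with hc | hc
    · -- r large: use the second block
      have s1 := t2 o (by omega) ((h.run_blk d2 o).2 ⟨0, by omega, by omega⟩)
      rw [hyrun] at s1
      obtain ⟨c1, hc1, e1⟩ := s1
      have s2 := t2 (o + 3 * (n - 1)) (by omega)
        ((h.run_blk d2 _).2 ⟨n - 1, by omega, rfl⟩)
      rw [hyrun] at s2
      obtain ⟨c2, hc2, e2⟩ := s2
      omega
    · have s1 := t1 (o + 3 * (n - 1)) hc ((h.run_blk d _).2 ⟨n - 1, by omega, rfl⟩)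
      rw [hyrun] at s1
      obtain ⟨c1, hc1, e1⟩ := s1
      have s2 := t1 o (by omega) ((h.run_blk d o).2 ⟨0, by omega, by omega⟩)
      rw [hyrun] at s2
      obtain ⟨c2, hc2, e2⟩ := s2
      omega
  -- now the cut is at a block boundary
  have hX : X = X.take j ++ d :: X.drop (j + 1) := by
    have h1 : X = X.take j ++ X.drop j := (List.take_append_drop j X).symm
    have h2 : X.drop j = X[j] :: X.drop (j + 1) := List.drop_eq_getElem_cons hjX
    have h3 : X[j] = d := by
      have := List.getElem?_eq_getElem hjX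
      rw [hd] at this
      exact (Option.some.inj this).symm
    rw [h2, h3] at h1
    exact h1
  have hR' : cat w X = cat w (X.take j) ++ (blk w d ++ cat w (X.drop (j + 1))) := by
    conv_lhs => rw [hX]
    rw [cat_append, cat_cons]
  have hlen1 : (cat w (X.take j)).length = R1.length := by
    rw [lc, List.length_take, min_eq_left hjX.le, hjr, hr0]; rfl
  rw [hR', List.append_assoc] at hR
  have h1 := List.append_inj hR hlen1
  have h2 := List.append_inj h1.2 (by rw [lb, hylen])
  exact ⟨X.take j, d, X.drop (j + 1), hX, h1.1.symm, h2.1.symm⟩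

end Pool.Agent.Helper2.Malchar
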