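import Pool.Agent.Helper2.Malchar.MainLemma

/-!
An automorphism of a free group which maps all basic half spaces to half spaces is, up to
conjugation, a signed permutation of the basis.
-/

namespace Pool.Agent.Helper2.Malchar

open Set Filter Topology Pointwise FreeGroup

variable {α : Type*} [DecidableEq α] [Fintype α]

set_option linter.unusedSectionVars false

lemma isReduced_replicate (s : α × Bool) (k : ℕ) : IsReduced (List.replicate k s) := by
  unfold FreeGroup.IsReduced
  exact List.isChain_replicate_of_rel _ (fun _ => rfl)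

lemma Cyl_infinite_of {g : FreeGroup α} {s : α × Bool} (hs : IsReduced (g.toWord ++ [s])) :
    (Cyl g).Infinite := by
  have hred : ∀ k, IsReduced (g.toWord ++ List.replicate (k + 1) s) := by
    intro k
    have h1 : IsReduced ([s] ++ List.replicate k s) := by
      have := isReduced_replicate s (k + 1)
      rwa [List.replicate_succ] at this
    have := hs.append_overlap h1 (by simp)
    simpa [List.replicate_succ] using this
  refine Set.infinite_of_injective_forall_mem
    (f := fun k : ℕ => FreeGroup.mk (g.toWord ++ List.replicate (k + 1) s)) ?_ ?_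
  · intro k l hkl
    have := congrArg (fun x : FreeGroup α => x.toWord.length) hkl
    simp only [toWord_of_red (hred _), List.length_append, List.length_replicate] at this
    omega
  · intro k
    rw [mem_Cyl, toWord_of_red (hred k)]
    exact ⟨_, rfl⟩

lemma exists_letter (hn : 2 ≤ Fintype.card α) (a b : α × Bool) :
    ∃ c : α × Bool, c ≠ a ∧ c ≠ b := by
  by_contra h
  push Not at h
  have h1 : (Finset.univ : Finset (α × Bool)) ⊆ {a, b} := by
    intro c _
    simp only [Finset.mem_insert, Finset.mem_singleton]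
    by_cases hc : c = a
    · exact Or.inl hc
    · exact Or.inr (h c hc)
  have h2 := Finset.card_le_card h1
  rw [Finset.card_univ, Fintype.card_prod, Fintype.card_bool] at h2
  have h3 := Finset.card_le_two (a := a) (b := b)
  omega

lemma Cyl_infinite (hn : 2 ≤ Fintype.card α) (g : FreeGroup α) : (Cyl g).Infinite := by
  by_cases hg : g = 1
  · obtain ⟨c, _⟩ := exists_letter hn (Classical.choice (by
      have : 0 < Fintype.card α := by omega
      obtain ⟨a⟩ := Fintype.card_pos_iff.1 this
      exact ⟨(a, true)⟩)) (Classical.choice (by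
      have : 0 < Fintype.card α := by omega
      obtain ⟨a⟩ := Fintype.card_pos_iff.1 this
      exact ⟨(a, true)⟩))
    exact Cyl_infinite_of (s := c) (by simp [hg])
  · obtain ⟨c, _, hc⟩ := outs_ne_one hg
    obtain ⟨d, hd, _⟩ := exists_letter hn c c
    exact Cyl_infinite_of (mem_outs.1 ((hc d).2 hd))

lemma lt_toWord (s : α × Bool) : (lt s).toWord = [s] := toWord_of_red IsReduced.singleton

lemma Star_singleton (s : α × Bool) : Star ({s} : Finset (α × Bool)) = Cyl (lt s) := by
  ext x
  rw [mem_Star, mem_Cyl, lt_toWord]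
  simp

lemma lt_ne_one (s : α × Bool) : lt s ≠ 1 := by
  intro h
  have := congrArg FreeGroup.toWord h
  rw [lt_toWord, toWord_one] at this
  simp at this

/-- the two types of half spaces -/
lemma half_cases (x : FreeGroup α) (s : α × Bool) :
    (x.toWord ++ [s] = (x * lt s).toWord ∧ x • Star ({s} : Finset (α × Bool)) = Cyl (x * lt s)) ∨
    (x ≠ 1 ∧ x • Star ({s} : Finset (α × Bool)) = (Cyl x)ᶜ) := by
  by_cases h : IsReduced (x.toWord ++ [s])
  · left
    refine ⟨(toWord_mul_lt h).symm, ?_⟩
    ext y
    rw [mem_smul_Star (by simpa using h), mem_Cyl_mul_lt h]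
    simp
  · right
    have hx : x ≠ 1 := by
      rintro rfl
      exact h (by simp)
    refine ⟨hx, ?_⟩
    rcases List.eq_nil_or_concat x.toWord with h0 | ⟨M, c, h0⟩
    · exact absurd (toWord_eq_nil_iff.1 h0) hx
    rw [List.concat_eq_append] at h0
    have hred : IsReduced (M ++ [c]) := by rw [← h0]; exact isReduced_toWord
    have hc : s = linv c := by
      by_contra hne
      apply h
      rw [h0]
      exact hred.append_overlap (isReduced_pair.2 hne) (by simp)
    -- x = y * lt c
    set y : FreeGroup α := FreeGroup.mk M with hy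
    have hyw : y.toWord = M := toWord_of_red (hred.subw ⟨[], [c], by simp⟩)
    have hyc : IsReduced (y.toWord ++ [c]) := by rw [hyw]; exact hred
    have hxy : x = y * lt c := by
      apply toWord_injective
      rw [toWord_mul_lt hyc, hyw, h0]
    rw [hxy, mul_smul, hc]
    have h2 := Star_compl c
    rw [← h2, smul_set_compl]
    congr 1
    ext z
    rw [mem_smul_Star (by simpa using hyc), mem_Cyl_mul_lt hyc]
    simp

lemma disjoint_heads {a b : α × Bool} {g h : FreeGroup α} {L M : List (α × Bool)}
    (hg : g.toWord = a :: L) (hh : h.toWord = b :: M) (hab : a ≠ b) {x : FreeGroup α}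
    (h1 : x ∈ Cyl g) (h2 : x ∈ Cyl h) : False := by
  obtain ⟨L1, hL1⟩ := mem_Cyl.1 h1
  obtain ⟨L2, hL2⟩ := mem_Cyl.1 h2
  rw [hg] at hL1
  rw [hh, hL1] at hL2
  simp only [List.cons_append, List.cons.injEq] at hL2
  exact hab hL2.1

/-- Lemma C -/
lemma eq_of_Cyl_diff_finite (hn : 2 ≤ Fintype.card α) {s : α × Bool} {h : FreeGroup α}
    (hh : h ≠ 1) (hfin : (Cyl (lt s) \ Cyl h).Finite) : h = lt s := by
  match hw : h.toWord with
  | [] => exact absurd (toWord_eq_nil_iff.1 hw) hh
  | a :: L =>
    by_cases has : a = s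
    · subst has
      match L with
      | [] => apply toWord_injective; rw [hw, lt_toWord]
      | b :: L =>
        exfalso
        obtain ⟨b', hb1, hb2⟩ := exists_letter hn b (linv a)
        have hr : IsReduced ((lt a).toWord ++ [b']) := by
          rw [lt_toWord]; exact isReduced_pair.2 hb2
        apply Cyl_infinite hn (lt a * lt b')
        refine hfin.subset ?_
        intro x hx
        obtain ⟨M, hM⟩ := (mem_Cyl_mul_lt hr).1 hx
        rw [lt_toWord] at hM
        refine ⟨mem_Cyl.2 ⟨b' :: M, by rw [hM, lt_toWord]⟩, fun hx2 => ?_⟩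
        obtain ⟨M', hM'⟩ := mem_Cyl.1 hx2
        rw [hw, hM] at hM'
        simp only [List.cons_append, List.nil_append, List.cons.injEq, true_and] at hM'
        exact hb1 hM'.1
    · exfalso
      apply Cyl_infinite hn (lt s)
      refine hfin.subset ?_
      intro x hx
      exact ⟨hx, fun hx2 => disjoint_heads hw (lt_toWord s) has hx2 hx⟩

lemma cyl_not_cocyl (hn : 2 ≤ Fintype.card α) {s : α × Bool} {h : FreeGroup α}
    (hh : h ≠ 1) (hfin : ((Cyl h)ᶜ \ Cyl (lt s)).Finite) : False := by
  match hw : h.toWord with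
  | [] => exact absurd (toWord_eq_nil_iff.1 hw) hh
  | a :: L =>
    obtain ⟨b, hb1, hb2⟩ := exists_letter hn a s
    apply Cyl_infinite hn (lt b)
    refine hfin.subset ?_
    intro x hx
    exact ⟨fun hx2 => disjoint_heads hw (lt_toWord b) hb1.symm hx2 hx,
      fun hx2 => disjoint_heads (lt_toWord s) (lt_toWord b) hb2.symm hx2 hx⟩

lemma half_unique (hn : 2 ≤ Fintype.card α) {x y : FreeGroup α} {s t : α × Bool}
    (h : AE (x • Star ({s} : Finset (α × Bool))) (y • Star {t})) : x = y ∧ s = t := by
  have h1 := h.smul x⁻¹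
  rw [inv_smul_smul, smul_smul, Star_singleton] at h1
  rw [ae_iff] at h1
  rcases half_cases (x⁻¹ * y) t with ⟨h2, h3⟩ | ⟨h2, h3⟩
  · rw [h3] at h1
    have hne : x⁻¹ * y * lt t ≠ 1 := by
      intro h0
      rw [h0, toWord_one] at h2
      simp at h2
    have h4 := eq_of_Cyl_diff_finite hn hne h1.1
    rw [h4, lt_toWord] at h2
    have h5 : (x⁻¹ * y).toWord = [] ∧ t = s := by
      cases hw : (x⁻¹ * y).toWord with
      | nil => rw [hw] at h2; simpa using h2
      | cons a L =>
        rw [hw] at h2
        simp at h2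
    have h6 := toWord_eq_nil_iff.1 h5.1
    exact ⟨(inv_mul_eq_one.1 h6), h5.2.symm⟩
  · rw [h3] at h1
    exact (cyl_not_cocyl hn h2 h1.2).elim

theorem rigid (hn : 2 ≤ Fintype.card α) (δ : FreeGroup α ≃* FreeGroup α)
    (h : ∀ s : α × Bool, HS (δ '' Star {s})) :
    ∃ (z : FreeGroup α) (σ : α × Bool → α × Bool), Function.Bijective σ ∧
      (∀ s, σ (linv s) = linv (σ s)) ∧ ∀ s, δ (lt s) = z * lt (σ s) * z⁻¹ := by
  classical
  choose x τ hx using h
  have hα : 0 < Fintype.card α := by omega
  obtain ⟨a0⟩ := Fintype.card_pos_iff.1 hα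
  set s0 : α × Bool := (a0, true) with hs0
  set z := x s0 with hz
  -- translated sets
  set H : α × Bool → Set (FreeGroup α) := fun s => z⁻¹ • (δ '' Star {s}) with hH
  have hdisj : ∀ s t, s ≠ t → H s ∩ H t = ∅ := by
    intro s t hst
    rw [hH]
    simp only
    rw [← smul_set_inter, ← image_inter δ.injective]
    have : Star ({s} : Finset (α × Bool)) ∩ Star {t} = ∅ := by
      ext y
      simp only [mem_inter_iff, mem_Star, Finset.mem_singleton, exists_eq_left,
        mem_empty_iff_false, iff_false, not_and, not_exists]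
      rintro ⟨L, hL⟩ M hM
      rw [hL] at hM
      simp only [List.cons.injEq] at hM
      exact hst hM.1
    rw [this, image_empty, smul_set_empty]
  have hinf : ∀ s, (H s).Infinite := by
    intro s
    rw [hH]
    simp only
    rw [Set.infinite_smul_set]
    rw [Set.infinite_image_iff δ.injective.injOn, Star_singleton]
    exact Cyl_infinite hn _
  have hHae : ∀ s, AE (H s) ((z⁻¹ * x s) • Star {τ s}) := by
    intro s
    rw [mul_smul]
    exact (hx s).smul z⁻¹
  have hH0 : AE (H s0) (Cyl (lt (τ s0))) := by
    have := hHae s0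
    rwa [hz, inv_mul_cancel, one_smul, Star_singleton] at this
  have hcover : ∀ y, y ≠ z⁻¹ → ∃ s, y ∈ H s := by
    intro y hy
    obtain ⟨v, hv⟩ := δ.surjective (z * y)
    match hw : v.toWord with
    | [] =>
      exfalso
      have := toWord_eq_nil_iff.1 hw
      rw [this, _root_.map_one] at hv
      apply hy
      exact (inv_eq_of_mul_eq_one_right hv.symm).symm
    | s :: L =>
      refine ⟨s, ?_⟩
      rw [hH]
      simp only
      rw [mem_smul_set_iff_inv_smul_mem, inv_inv, smul_eq_mul, ← hv]
      exact ⟨v, ⟨s, by simp, L, hw⟩, rfl⟩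
  -- every H s is a cylinder
  have hcyl : ∀ s, ∃ g : FreeGroup α, g ≠ 1 ∧ AE (H s) (Cyl g) := by
    intro s
    rcases half_cases (z⁻¹ * x s) (τ s) with ⟨h2, h3⟩ | ⟨h2, h3⟩
    · refine ⟨z⁻¹ * x s * lt (τ s), ?_, ?_⟩
      · intro h0
        rw [h0, toWord_one] at h2
        simp at h2
      · rw [← h3]; exact hHae s
    · exfalso
      have h4 := hHae s
      rw [h3] at h4
      have hne : s ≠ s0 := by
        rintro rfl
        have := hH0.symm.trans h4
        rw [ae_iff] at this
        exact cyl_not_cocyl hn h2 this.2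
      -- Cyl (lt τ s0) ⊆* Cyl (z⁻¹ * x s)
      have h5 : (Cyl (lt (τ s0)) \ Cyl (z⁻¹ * x s)).Finite := by
        have e1 := (ae_iff.1 hH0).2
        have e2 := (ae_iff.1 h4).2
        refine (e1.union e2).subset ?_
        rintro y ⟨hy1, hy2⟩
        by_cases hy3 : y ∈ H s0
        · right
          refine ⟨hy2, fun hy4 => ?_⟩
          have := hdisj s s0 hne
          rw [← mem_empty_iff_false y, ← this]
          exact ⟨hy4, hy3⟩
        · left; exact ⟨hy1, hy3⟩
      have h6 := eq_of_Cyl_diff_finite hn h2 h5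
      rw [h6] at h4
      -- third letter
      obtain ⟨r, hr1, hr2⟩ := exists_letter hn s s0
      apply hinf r
      have e1 := (ae_iff.1 hH0).2
      have e2 := (ae_iff.1 h4).2
      refine (e1.union e2).subset ?_
      intro y hy
      by_cases hy1 : y ∈ Cyl (lt (τ s0))
      · left
        refine ⟨hy1, fun hy2 => ?_⟩
        have := hdisj r s0 hr2
        rw [← mem_empty_iff_false y, ← this]
        exact ⟨hy, hy2⟩
      · right
        refine ⟨hy1, fun hy2 => ?_⟩
        have := hdisj r s hr1
        rw [← mem_empty_iff_false y, ← this]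
        exact ⟨hy, hy2⟩
  choose g hg1 hg2 using hcyl
  have hhead : ∀ s, ∃ a L, (g s).toWord = a :: L := by
    intro s
    match hw : (g s).toWord with
    | [] => exact absurd (toWord_eq_nil_iff.1 hw) (hg1 s)
    | a :: L => exact ⟨a, L, rfl⟩
  choose φ M hφ using hhead
  have hsurj : Function.Surjective φ := by
    intro t
    by_contra hcon
    push Not at hcon
    apply Cyl_infinite hn (lt t)
    have hfin : ({z⁻¹} ∪ ⋃ s, (H s \ Cyl (g s))).Finite :=
      (finite_singleton _).union (finite_iUnion fun s => (ae_iff.1 (hg2 s)).1)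
    refine hfin.subset ?_
    intro y hy
    by_cases hyz : y = z⁻¹
    · left; exact hyz
    · right
      obtain ⟨s, hs⟩ := hcover y hyz
      exact mem_iUnion.2 ⟨s, hs, fun hy2 =>
        disjoint_heads (hφ s) (lt_toWord t) (hcon s) hy2 hy⟩
  have hbij : Function.Bijective φ := Finite.surjective_iff_bijective.1 hsurj
  have hgs : ∀ s, g s = lt (φ s) := by
    intro s
    apply eq_of_Cyl_diff_finite hn (hg1 s)
    have hfin : ({z⁻¹} ∪ ⋃ s, (H s \ Cyl (g s))).Finite :=
      (finite_singleton _).union (finite_iUnion fun s => (ae_iff.1 (hg2 s)).1)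
    refine hfin.subset ?_
    rintro y ⟨hy, hy'⟩
    by_cases hyz : y = z⁻¹
    · left; exact hyz
    · right
      obtain ⟨r, hr⟩ := hcover y hyz
      refine mem_iUnion.2 ⟨r, hr, fun hy2 => ?_⟩
      by_cases hrs : r = s
      · subst hrs; exact hy' hy2
      · have : φ r ≠ φ s := fun h => hrs (hbij.1 h)
        exact disjoint_heads (hφ r) (lt_toWord (φ s)) this hy2 hy
  have hmain : ∀ s, AE (δ '' Star {s}) (z • Star {φ s}) := by
    intro s
    have h1 := (hg2 s).smul z
    rw [hgs, ← Star_singleton] at h1
    simp only [hH] at h1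
    rwa [smul_inv_smul] at h1
  have hfinal : ∀ s, z * lt (φ s) = δ (lt s) * z ∧ linv (φ s) = φ (linv s) := by
    intro s
    have e1 : δ '' (Star ({s} : Finset (α × Bool)))ᶜ = δ (lt s) • (δ '' Star {linv s}) := by
      rw [Star_compl]
      ext y
      simp only [mem_image, mem_smul_set, smul_eq_mul]
      constructor
      · rintro ⟨_, ⟨u, hu, rfl⟩, rfl⟩
        exact ⟨δ u, ⟨u, hu, rfl⟩, by rw [_root_.map_mul]⟩
      · rintro ⟨_, ⟨u, hu, rfl⟩, rfl⟩
        exact ⟨lt s * u, ⟨u, hu, rfl⟩, by rw [_root_.map_mul]⟩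
    have e2 : AE (δ '' (Star ({s} : Finset (α × Bool)))ᶜ) ((z * lt (φ s)) • Star {linv (φ s)}) := by
      rw [image_compl_eq δ.bijective, mul_smul, ← Star_compl, smul_set_compl]
      exact (hmain s).compl
    have e3 : AE (δ '' (Star ({s} : Finset (α × Bool)))ᶜ) ((δ (lt s) * z) • Star {φ (linv s)}) := by
      rw [e1, mul_smul]
      exact (hmain (linv s)).smul _
    exact half_unique hn (e2.symm.trans e3)
  refine ⟨z, φ, hbij, fun s => (hfinal s).2.symm, fun s => ?_⟩
  rw [(hfinal s).1]; group

end Pool.Agent.Helper2.Malchar
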