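import Pool.Agent.Helper2.Malchar.Crossing

/-!
Cylinders and stars in a free group; the lower bound for crossing numbers.
-/

namespace Pool.Agent.Helper2.Malchar

open Set Filter Topology Pointwise FreeGroup

variable {α : Type*} [DecidableEq α]

set_option linter.unusedSectionVars false

lemma _root_.FreeGroup.IsReduced.subw {L M : List (α × Bool)} (h : IsReduced L)
    (h' : M <:+: L) : IsReduced M := by
  obtain ⟨A, B, rfl⟩ := h'
  exact (List.IsChain.left_of_append h).right_of_append

/-- inverse letter -/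
def linv (s : α × Bool) : α × Bool := (s.1, !s.2)

@[simp] lemma linv_linv (s : α × Bool) : linv (linv s) = s := by simp [linv]

lemma linv_ne (s : α × Bool) : linv s ≠ s := by
  rcases s with ⟨a, b⟩; cases b <;> simp [linv]

lemma linv_inj {s t : α × Bool} (h : linv s = linv t) : s = t := by
  rw [← linv_linv s, h, linv_linv]

/-- a letter as a group element -/
def lt (s : α × Bool) : FreeGroup α := FreeGroup.mk [s]

lemma lt_inv (s : α × Bool) : (lt s)⁻¹ = lt (linv s) := by
  simp [lt, linv, FreeGroup.invRev]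

lemma lt_linv_mul (s : α × Bool) : lt (linv s) * lt s = 1 := by
  rw [← lt_inv]; simp

lemma lt_mul_linv (s : α × Bool) : lt s * lt (linv s) = 1 := by
  rw [← lt_inv]; simp

lemma toWord_of_red {L : List (α × Bool)} (h : IsReduced L) : (FreeGroup.mk L).toWord = L := by
  rw [toWord_mk, h.reduce_eq]

lemma isReduced_pair {s t : α × Bool} : IsReduced [s, t] ↔ t ≠ linv s := by
  rcases s with ⟨a, b⟩; rcases t with ⟨c, d⟩
  simp only [isReduced_cons_cons, linv, ne_eq, Prod.mk.injEq, IsReduced.singleton, and_true]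
  constructor
  · rintro h ⟨rfl, rfl⟩
    have := h rfl
    cases b <;> simp at this
  · rintro h rfl
    by_contra h2
    apply h
    refine ⟨rfl, ?_⟩
    cases b <;> cases d <;> simp_all

lemma norm_def (x : FreeGroup α) : x.norm = x.toWord.length := rfl

/-- cylinder of `g` : elements whose reduced word starts with `g`. -/
def Cyl (g : FreeGroup α) : Set (FreeGroup α) := {x | g.toWord <+: x.toWord}

/-- star sets : first letter in `P`. -/
def Star (P : Finset (α × Bool)) : Set (FreeGroup α) :=
  {x | ∃ s ∈ P, ∃ L, x.toWord = s :: L}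

lemma mem_Cyl {g x : FreeGroup α} : x ∈ Cyl g ↔ ∃ L, x.toWord = g.toWord ++ L := by
  unfold Cyl
  simp only [mem_ofPred_eq, List.IsPrefix]
  constructor
  · rintro ⟨L, h⟩; exact ⟨L, h.symm⟩
  · rintro ⟨L, h⟩; exact ⟨L, h.symm⟩

lemma mem_Star {P : Finset (α × Bool)} {x : FreeGroup α} :
    x ∈ Star P ↔ ∃ s ∈ P, ∃ L, x.toWord = s :: L := Iff.rfl

lemma Cyl_one : Cyl (1 : FreeGroup α) = univ := by
  ext x; simp [mem_Cyl]

lemma self_mem_Cyl (g : FreeGroup α) : g ∈ Cyl g := by rw [mem_Cyl]; exact ⟨[], by simp⟩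

/-- `g` followed by a compatible letter -/
lemma toWord_mul_lt {g : FreeGroup α} {s : α × Bool} (h : IsReduced (g.toWord ++ [s])) :
    (g * lt s).toWord = g.toWord ++ [s] := by
  have : g * lt s = FreeGroup.mk (g.toWord ++ [s]) := by
    rw [← mul_mk, mk_toWord]; rfl
  rw [this, toWord_of_red h]

lemma mem_Cyl_mul_lt {g x : FreeGroup α} {s : α × Bool} (h : IsReduced (g.toWord ++ [s])) :
    x ∈ Cyl (g * lt s) ↔ ∃ L, x.toWord = g.toWord ++ s :: L := by
  rw [mem_Cyl, toWord_mul_lt h]
  simp

lemma mem_smul_Star {g x : FreeGroup α} {P : Finset (α × Bool)}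
    (hP : ∀ s ∈ P, IsReduced (g.toWord ++ [s])) :
    x ∈ g • Star P ↔ ∃ s ∈ P, ∃ L, x.toWord = g.toWord ++ s :: L := by
  rw [mem_smul_set_iff_inv_smul_mem, smul_eq_mul, mem_Star]
  constructor
  · rintro ⟨s, hs, L, hL⟩
    refine ⟨s, hs, L, ?_⟩
    have h1 : IsReduced (s :: L) := by rw [← hL]; exact isReduced_toWord
    have h2 : IsReduced (g.toWord ++ [s] ++ L) := (hP s hs).append_overlap (by simpa using h1) (by simp)
    have h3 : x = FreeGroup.mk (g.toWord ++ [s] ++ L) := by
      have : x = g * (g⁻¹ * x) := by group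
      rw [this, ← mk_toWord (x := g⁻¹ * x), hL, List.append_assoc, ← mul_mk, mk_toWord]
      rfl
    rw [h3, toWord_of_red h2]; simp
  · rintro ⟨s, hs, L, hL⟩
    refine ⟨s, hs, L, ?_⟩
    have h1 : IsReduced (g.toWord ++ s :: L) := by rw [← hL]; exact isReduced_toWord
    have h2 : IsReduced (s :: L) := h1.subw ⟨g.toWord, [], by simp⟩
    have h3 : g⁻¹ * x = FreeGroup.mk (s :: L) := by
      rw [← mk_toWord (x := x), hL, ← mul_mk, mk_toWord]; group
    rw [h3, toWord_of_red h2]

lemma mem_letters_closure : Subgroup.closure (range (lt (α := α))) = ⊤ := by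
  rw [eq_top_iff, ← FreeGroup.closure_range_of]
  apply Subgroup.closure_mono
  rintro _ ⟨a, rfl⟩
  exact ⟨(a, true), rfl⟩

section Fin
variable [Fintype α]

lemma finite_norm_le (R : ℕ) : {x : FreeGroup α | x.norm ≤ R}.Finite := by
  have h : ({l : List (α × Bool) | l.length ≤ R}).Finite := List.finite_length_le _ _
  exact (h.preimage toWord_injective.injOn).subset (fun x hx => hx)

lemma AI_Star (P : Finset (α × Bool)) : AI (Star P) := by
  apply AI.of_generators mem_letters_closure
  rintro _ ⟨s, rfl⟩
  refine (finite_norm_le 1).subset ?_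
  intro x hx
  by_contra h
  simp only [mem_ofPred_eq, not_le] at h
  rw [norm_def] at h
  apply hx
  -- both have the same first letter
  obtain ⟨a, b, L, hL⟩ : ∃ a b L, x.toWord = a :: b :: L := by
    match hx : x.toWord with
    | [] => simp [hx] at h
    | [a] => simp [hx] at h
    | a :: b :: L => exact ⟨a, b, L, rfl⟩
  have key : ∃ L', (x * lt s).toWord = a :: L' := by
    by_cases hr : IsReduced (x.toWord ++ [s])
    · rw [toWord_mul_lt hr, hL]; exact ⟨_, rfl⟩
    · -- cancellation
      obtain ⟨M, c, hM⟩ : ∃ M c, x.toWord = M ++ [c] := by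
        rcases List.eq_nil_or_concat x.toWord with h0 | ⟨M, c, h0⟩
        · simp [h0] at hL
        · exact ⟨M, c, by simpa using h0⟩
      have hred : IsReduced (M ++ [c]) := by rw [← hM]; exact isReduced_toWord
      have hc : s = linv c := by
        by_contra hne
        apply hr
        rw [hM]
        exact hred.append_overlap (isReduced_pair.2 hne) (by simp)
      have h1 : x * lt s = FreeGroup.mk M := by
        rw [← mk_toWord (x := x), hM, hc, ← mul_mk, mul_assoc]
        have := lt_mul_linv c
        unfold lt at this ⊢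
        rw [this, mul_one]
      have hMr : IsReduced M := hred.subw ⟨[], [c], by simp⟩
      rw [h1, toWord_of_red hMr]
      rw [hM] at hL
      cases M with
      | nil => simp at hL
      | cons a' M' =>
        simp only [List.cons_append, List.cons.injEq] at hL
        exact ⟨M', by rw [hL.1]⟩
  obtain ⟨L', hL'⟩ := key
  simp only [mem_Star, hL, hL', List.cons.injEq]
  constructor
  · rintro ⟨t, ht, _, h1, _⟩; exact ⟨t, ht, _, h1, rfl⟩
  · rintro ⟨t, ht, _, h1, _⟩; exact ⟨t, ht, _, h1, rfl⟩

/-- Purity of far cylinders. -/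
lemma exists_pure {U : Set (FreeGroup α)} (hU : AI U) :
    ∃ R : ℕ, ∀ g : FreeGroup α, R ≤ g.norm → ∀ x ∈ Cyl g, (x ∈ U ↔ g ∈ U) := by
  classical
  have hfin : (⋃ s : α × Bool, bd U (lt s)).Finite := finite_iUnion fun s => hU _
  obtain ⟨R, hR⟩ : ∃ R, ∀ x ∈ (⋃ s : α × Bool, bd U (lt s)), x.norm < R := by
    obtain ⟨m, hm⟩ := (hfin.image (fun x : FreeGroup α => x.norm)).bddAbove
    exact ⟨m + 1, fun x hx => Nat.lt_succ_of_le (hm ⟨x, hx, rfl⟩)⟩
  refine ⟨R, fun g hg x hx => ?_⟩
  obtain ⟨L, hL⟩ := mem_Cyl.1 hx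
  clear hx
  induction L using List.reverseRecOn generalizing x with
  | nil =>
    have : x = g := by rw [List.append_nil] at hL; exact toWord_injective hL
    rw [this]
  | append_singleton L s ih =>
    have hred : IsReduced (g.toWord ++ L ++ [s]) := by
      rw [List.append_assoc, ← hL]; exact isReduced_toWord
    have hred' : IsReduced (g.toWord ++ L) := hred.subw ⟨[], [s], by simp⟩
    set y : FreeGroup α := FreeGroup.mk (g.toWord ++ L) with hy
    have hyw : y.toWord = g.toWord ++ L := toWord_of_red hred'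
    have hxy : x = y * lt s := by
      apply toWord_injective
      rw [toWord_mul_lt (by rw [hyw]; exact hred), hyw, hL]; simp
    have h1 := ih y hyw
    have h2 : y ∉ bd U (lt s) := by
      intro hmem
      have := hR y (mem_iUnion.2 ⟨s, hmem⟩)
      rw [norm_def, hyw, List.length_append, ← norm_def] at this
      omega
    rw [mem_bd, not_not, ← hxy] at h2
    rw [← h2, h1]

/-- split cylinders -/
def Split (U : Set (FreeGroup α)) : Set (FreeGroup α) :=
  {g | (U ∩ Cyl g).Infinite ∧ (Cyl g \ U).Infinite}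

lemma Split_finite {U : Set (FreeGroup α)} (hU : AI U) : (Split U).Finite := by
  obtain ⟨R, hR⟩ := exists_pure hU
  refine (finite_norm_le R).subset ?_
  intro g hg
  by_contra h
  simp only [mem_ofPred_eq, not_le] at h
  by_cases hgU : g ∈ U
  · apply hg.2
    convert finite_empty
    ext x
    simp only [Set.mem_sdiff, mem_empty_iff_false, iff_false, not_and, not_not]
    intro hx
    exact (hR g h.le x hx).2 hgU
  · apply hg.1
    convert finite_empty
    ext x
    simp only [mem_inter_iff, mem_empty_iff_false, iff_false, not_and]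
    intro hxU hx
    exact hgU ((hR g h.le x hx).1 hxU)

lemma Cyl_subset_or {g h : FreeGroup α} (x : FreeGroup α) (h1 : x ∈ Cyl g) (h2 : x ∈ Cyl h) :
    h ∈ Cyl g ∨ g ∈ Cyl h := by
  rcases le_total g.norm h.norm with hle | hle
  · left; exact List.prefix_of_prefix_length_le h1 h2 hle
  · right; exact List.prefix_of_prefix_length_le h2 h1 hle

lemma Cyl_mono {g h : FreeGroup α} (hg : h ∈ Cyl g) : Cyl h ⊆ Cyl g := by
  intro x hx
  exact List.IsPrefix.trans hg hx

end Fin

end Pool.Agent.Helper2.Malchar
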