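import Pool.Agent.Helper2.Malchar.Example

/-!
Verification of the hypotheses of the abstract theorem for the explicit words.
-/

namespace Pool.Agent.Helper2.Malchar

open Set Filter Topology Pointwise FreeGroup

set_option linter.unusedSectionVars false

section Red
variable {α : Type*} [DecidableEq α] {ι : Type*} [DecidableEq ι]

lemma invRev_head? (L : List (α × Bool)) : (invRev L).head? = L.getLast?.map linv := by
  unfold invRev
  rw [List.head?_reverse, List.getLast?_map]; rfl

lemma invRev_getLast? (L : List (α × Bool)) : (invRev L).getLast? = L.head?.map linv := by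
  unfold invRev
  rw [List.getLast?_reverse, List.head?_map]; rfl

lemma red_of_PP {w : ι → List (α × Bool)} (h1 : ∀ i, PP (w i)) (h2 : ∀ i, w i ≠ [])
    (h3 : ∀ i j, i ≠ j → (w i).head? ≠ (w j).head?)
    (h4 : ∀ i j, i ≠ j → (w i).getLast? ≠ (w j).getLast?) (X : List (ι × Bool))
    (hX : IsReduced X) : IsReduced (cat w X) := by
  unfold cat FreeGroup.IsReduced
  rw [List.flatMap_def, List.isChain_flatten]
  · constructor
    · intro l hl
      rw [List.mem_map] at hl
      obtain ⟨c, _, rfl⟩ := hl
      unfold blk
      split_ifs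
      · exact (h1 _).red
      · exact isReduced_invRev (h1 _).red
    · rw [List.isChain_map]
      refine List.IsChain.imp ?_ hX
      rintro ⟨i, b⟩ ⟨j, b'⟩ hcd x hx y hy hxy
      simp only at hcd
      unfold blk at hx hy
      cases b <;> cases b'
      · simp only [Bool.false_eq_true, if_false] at hx hy
        rw [invRev_getLast?, Option.mem_def, Option.map_eq_some_iff] at hx
        rw [invRev_head?, Option.mem_def, Option.map_eq_some_iff] at hy
        obtain ⟨x', hx', rfl⟩ := hx
        obtain ⟨y', hy', rfl⟩ := hy
        have e1 := (h1 i).head x' hx'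
        have e2 := (h1 j).last y' hy'
        simp [linv, e1, e2]
      · simp only [Bool.false_eq_true, if_false, if_true] at hx hy
        rw [invRev_getLast?, Option.mem_def, Option.map_eq_some_iff] at hx
        obtain ⟨x', hx', rfl⟩ := hx
        have e1 := (h1 i).head x' hx'
        have e2 := (h1 j).head y hy
        exfalso
        have hij : i ≠ j := fun h => by simpa using hcd h
        apply h3 i j hij
        have : x' = y := by
          apply Prod.ext
          · exact hxy
          · rw [e1, e2]
        rw [hx', this]; exact hy.symm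
      · simp only [Bool.false_eq_true, if_false, if_true] at hx hy
        rw [invRev_head?, Option.mem_def, Option.map_eq_some_iff] at hy
        obtain ⟨y', hy', rfl⟩ := hy
        have e1 := (h1 i).last x hx
        have e2 := (h1 j).last y' hy'
        exfalso
        have hij : i ≠ j := fun h => by simpa using hcd h
        apply h4 i j hij
        have : x = y' := by
          apply Prod.ext
          · exact hxy
          · rw [e1, e2]
        rw [hy', ← this]; exact hx
      · simp only [if_true] at hx hy
        rw [(h1 i).last x hx, (h1 j).head y hy]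
  · rw [List.mem_map]
    rintro ⟨c, _, hc⟩
    unfold blk at hc
    split_ifs at hc
    · exact h2 _ hc
    · apply h2 c.1
      have := congrArg List.length hc
      rw [invRev_length] at this
      exact List.length_eq_zero_iff.1 this

end Red

variable {n : ℕ}

lemma word_shape (p q p' q' : Fin n × Fin n) :
    ∃ M, word (full p q) (full p' q') = Q p ++ (M ++ Q q') := by
  unfold word full
  refine ⟨H ((((Finset.univ : Finset (Fin n)).offDiag.erase p).erase q).toList ++ [q]) ++
    (Rr n ++ H (p' :: (((Finset.univ : Finset (Fin n)).offDiag.erase p').erase q').toList)), ?_⟩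
  rw [List.cons_append, H_cons, H_append, H_append]
  have : H [q'] = Q q' := by rw [H_cons, H_nil, List.append_nil]
  rw [this]
  simp only [List.append_assoc]

/-- data of the first and last letters -/
lemma word_ends (p q p' q' : Fin n × Fin n) :
    (word (full p q) (full p' q'))[0]? = some (p.1, true) ∧
    (word (full p q) (full p' q'))[1]? = some (p.2, false) ∧
    (word (full p q) (full p' q'))[(word (full p q) (full p' q')).length - 1]? =
      some (q'.2, true) ∧
    (word (full p q) (full p' q'))[(word (full p q) (full p' q')).length - 2]? =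
      some (q'.1, true) := by
  obtain ⟨M, hM⟩ := word_shape p q p' q'
  rw [hM]
  have hQ : ∀ x : Fin n × Fin n, (Q x).length = 16 := fun x => by simp [Q]
  have hl : (Q p ++ (M ++ Q q')).length = 32 + M.length := by
    rw [List.length_append, List.length_append, hQ, hQ]; omega
  refine ⟨?_, ?_, ?_, ?_⟩
  · rw [List.getElem?_append_left (by rw [hQ]; omega)]; rfl
  · rw [List.getElem?_append_left (by rw [hQ]; omega)]; rfl
  · rw [hl, List.getElem?_append_right (by rw [hQ]; omega), hQ,
      List.getElem?_append_right (by omega),
      show 32 + M.length - 1 - 16 - M.length = 15 by omega]; rfl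
  · rw [hl, List.getElem?_append_right (by rw [hQ]; omega), hQ,
      List.getElem?_append_right (by omega),
      show 32 + M.length - 2 - 16 - M.length = 14 by omega]; rfl

lemma H_full_last (p q : Fin n × Fin n) :
    (H (full p q))[(H (full p q)).length - 1]? = some (q.2, true) := by
  unfold full
  rw [H_append]
  have : H [q] = Q q := by rw [H_cons, H_nil, List.append_nil]
  rw [this, List.length_append]
  have hQ : (Q q).length = 16 := by simp [Q]
  rw [hQ, List.getElem?_append_right (by omega)]
  rw [show (H (p :: (((Finset.univ : Finset (Fin n)).offDiag.erase p).erase q).toList)).length + 16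
    - 1 - (H (p :: (((Finset.univ : Finset (Fin n)).offDiag.erase p).erase q).toList)).length = 15
    by omega]
  rfl

lemma H_full_first (p q : Fin n × Fin n) : (H (full p q))[0]? = some (p.1, true) := by
  unfold full
  rw [List.cons_append, H_cons, List.getElem?_append_left (by simp [Q])]
  rfl

section Main
variable (hn : 3 ≤ n)

/-- the two generators -/
noncomputable def ww : Fin 2 → List (Fin n × Bool) :=
  ![word (full (⟨0, by omega⟩, ⟨1, by omega⟩) (⟨0, by omega⟩, ⟨2, by omega⟩))
      (full (⟨0, by omega⟩, ⟨1, by omega⟩) (⟨1, by omega⟩, ⟨0, by omega⟩)),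
    word (full (⟨1, by omega⟩, ⟨0, by omega⟩) (⟨0, by omega⟩, ⟨2, by omega⟩))
      (full (⟨0, by omega⟩, ⟨2, by omega⟩) (⟨0, by omega⟩, ⟨1, by omega⟩))]

/-- uniform description of the two words -/
structure Shape (L : List (Fin n × Bool)) (h : Fin n) (l : Fin n) : Prop where
  pp : PP L
  len : L.length = 2 * (16 * (n * (n - 1))) + 3 * n
  cnt : ∀ s, cnt s L = 32 * (n - 1) + 3
  tint : ∀ P : Finset (Fin n × Bool), 2 ≤ P.card → P.card + 2 ≤ 2 * n →
    32 * (n - 1) + 3 + 1 ≤ tint P L
  run : ∀ q, Run3 L q ↔ ∃ c, c < n ∧ q = 16 * (n * (n - 1)) + 3 * c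
  first : L[0]? = some (h, true)
  second : L[1]? = some (l, false)
  last : L[L.length - 1]? = some (h, true)
  last2 : L[L.length - 2]? = some (l, true)
  mid : ∀ c : Fin n, L[16 * (n * (n - 1)) + 3 * c.1]? = some (c, true)
  mid2 : ∀ c : Fin n, L[16 * (n * (n - 1)) + 3 * c.1 + 2]? = some (c, true)

lemma shape_of {p q p' q' : Fin n × Fin n} (hp : p.1 ≠ p.2) (hq : q.1 ≠ q.2)
    (hpq : p ≠ q) (hp' : p'.1 ≠ p'.2) (hq' : q'.1 ≠ q'.2) (hpq' : p' ≠ q')
    (h1 : q.2 ≠ ⟨0, by omega⟩) (h2 : p'.1 ≠ ⟨n - 1, by omega⟩)
    (e1 : q'.2 = p.1) (e2 : q'.1 = p.2) :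
    Shape (word (full p q) (full p' q')) p.1 p.2 := by
  obtain ⟨f1, f2, f3, f4⟩ := word_ends p q p' q'
  have hlen : (H (full p q)).length = 16 * (n * (n - 1)) := by
    rw [length_H, length_full hp hq hpq]
  refine ⟨PP_word (mem_full hp hq) (mem_full hp' hq'), ?_, ?_, ?_, ?_, f1, f2, ?_, ?_, ?_, ?_⟩
  · exact word_length (length_full hp hq hpq) (length_full hp' hq' hpq')
  · intro s; exact cnt_word s hp hq hpq hp' hq' hpq'
  · intro P g1 g2; exact tint_word P g1 g2 hn hp hq hpq hp' hq' hpq'
  · intro r
    rw [← hlen]
    refine word_run (mem_full hp hq) (mem_full hp' hq') (by omega) ?_ ?_ r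
    · rw [H_full_last]
      intro h
      rw [Option.some.injEq, Prod.mk.injEq] at h
      exact h1 h.1
    · rw [H_full_first]
      intro h
      rw [Option.some.injEq, Prod.mk.injEq] at h
      exact h2 h.1
  · rw [f3, e1]
  · rw [f4, e2]
  · intro c
    have hc := c.2
    rw [← hlen, word_get_mid (by omega)]
    have := Rr_getElem? c 0 (by omega)
    simpa using this
  · intro c
    have hc := c.2
    rw [← hlen, add_assoc, word_get_mid (by omega)]
    exact Rr_getElem? c 2 (by omega)

lemma shape0 : Shape (ww hn 0) ⟨0, by omega⟩ ⟨1, by omega⟩ := by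
  apply shape_of hn <;> (simp [Fin.ext_iff]; try omega)

lemma shape1 : Shape (ww hn 1) ⟨1, by omega⟩ ⟨0, by omega⟩ := by
  apply shape_of hn <;> (simp [Fin.ext_iff]; try omega)

end Main

end Pool.Agent.Helper2.Malchar
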