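import Pool.Agent.Helper2.Malchar.Final

/-!
Explicit words in the free group on `Fin n`, `n ≥ 3`.
-/

namespace Pool.Agent.Helper2.Malchar

open Set Filter Topology Pointwise FreeGroup

set_option linter.unusedSectionVars false

section Q

variable {α : Type*} [DecidableEq α]

/-- the basic piece: `(a b⁻¹)⁴ (a b)⁴` -/
def Q (p : α × α) : List (α × Bool) :=
  [(p.1, true), (p.2, false), (p.1, true), (p.2, false), (p.1, true), (p.2, false), (p.1, true),
    (p.2, false), (p.1, true), (p.2, true), (p.1, true), (p.2, true), (p.1, true), (p.2, true),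
    (p.1, true), (p.2, true)]

/-- concatenation of pieces -/
def H (ps : List (α × α)) : List (α × Bool) := ps.flatMap Q

@[simp] lemma H_nil : H ([] : List (α × α)) = [] := rfl

lemma H_cons (p : α × α) (ps : List (α × α)) : H (p :: ps) = Q p ++ H ps := by simp [H]

lemma H_append (ps qs : List (α × α)) : H (ps ++ qs) = H ps ++ H qs := by simp [H]

/-- words whose first and last letters are positive -/
structure PP (L : List (α × Bool)) : Prop where
  red : IsReduced L
  head : ∀ a ∈ L.head?, a.2 = true
  last : ∀ a ∈ L.getLast?, a.2 = true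

lemma PP.nil : PP ([] : List (α × Bool)) := ⟨by simp, by simp, by simp⟩

lemma PP.append {L M : List (α × Bool)} (hL : PP L) (hM : PP M) : PP (L ++ M) := by
  refine ⟨?_, ?_, ?_⟩
  · unfold FreeGroup.IsReduced
    rw [List.isChain_append]
    refine ⟨hL.red, hM.red, ?_⟩
    intro x hx y hy _
    rw [hL.last x hx, hM.head y hy]
  · intro a ha
    rw [List.head?_append] at ha
    cases hL' : L.head? with
    | none => rw [hL'] at ha; exact hM.head a (by simpa using ha)
    | some b => rw [hL'] at ha; exact hL.head a (by rw [hL']; simpa using ha)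
  · intro a ha
    rw [List.getLast?_append] at ha
    cases hM' : M.getLast? with
    | none => rw [hM'] at ha; exact hL.last a (by simpa using ha)
    | some b => rw [hM'] at ha; exact hM.last a (by rw [hM']; simpa using ha)

lemma PP_Q {p : α × α} (hp : p.1 ≠ p.2) : PP (Q p) := by
  have hp' : p.2 ≠ p.1 := hp.symm
  refine ⟨?_, ?_, ?_⟩
  · simp [Q, hp, hp']
  · simp [Q]
  · simp [Q]

lemma PP_H {ps : List (α × α)} (hps : ∀ p ∈ ps, p.1 ≠ p.2) : PP (H ps) := by
  induction ps with
  | nil => exact PP.nil
  | cons p ps ih =>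
    rw [H_cons]
    exact (PP_Q (hps p (by simp))).append (ih fun q hq => hps q (by simp [hq]))

lemma letter_eq_iff (a s : α × Bool) : (a = s ∨ a = linv s) ↔ a.1 = s.1 := by
  rcases a with ⟨a, b⟩
  rcases s with ⟨c, d⟩
  simp only [linv, Prod.mk.injEq]
  constructor
  · rintro (h | h) <;> exact h.1
  · intro h
    cases b <;> cases d <;> simp [h]

lemma cnt_Q (s : α × Bool) (p : α × α) :
    cnt s (Q p) = 8 * (if p.1 = s.1 then 1 else 0) + 8 * (if p.2 = s.1 then 1 else 0) := by
  unfold Q
  simp only [cnt_cons, cnt_nil, letter_eq_iff]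
  split_ifs <;> rfl

lemma cnt_H (s : α × Bool) (ps : List (α × α)) :
    cnt s (H ps) = (ps.map fun p => 8 * (if p.1 = s.1 then 1 else 0)
      + 8 * (if p.2 = s.1 then 1 else 0)).sum := by
  induction ps with
  | nil => simp
  | cons p ps ih => rw [H_cons, cnt_append, ih, cnt_Q, List.map_cons, List.sum_cons]

/-- number of separated pairs -/
def sep (P : Finset (α × Bool)) (a b : α × Bool) : ℕ := if (a ∈ P ↔ b ∈ P) then 0 else 1

lemma sep_comm (P : Finset (α × Bool)) (a b : α × Bool) : sep P a b = sep P b a := by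
  unfold sep; congr 1; exact propext iff_comm

/-- the four separated pairs for a pair of generators -/
def S4 (P : Finset (α × Bool)) (p : α × α) : ℕ :=
  sep P (p.1, true) (p.2, true) + sep P (p.1, true) (p.2, false) +
    sep P (p.1, false) (p.2, true) + sep P (p.1, false) (p.2, false)

lemma tint_cons_cons (P : Finset (α × Bool)) (a b : α × Bool) (L : List (α × Bool)) :
    tint P (a :: b :: L) = sep P (linv a) b + tint P (b :: L) := rfl

lemma tint_single (P : Finset (α × Bool)) (a : α × Bool) : tint P [a] = 0 := rfl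

lemma tint_Q (P : Finset (α × Bool)) (p : α × α) : 3 * S4 P p ≤ tint P (Q p) := by
  unfold Q S4
  simp only [tint_cons_cons, tint_single, linv, Bool.not_true, Bool.not_false]
  rw [sep_comm P (p.2, true) (p.1, true), sep_comm P (p.2, false) (p.1, true)]
  omega

lemma tint_H (P : Finset (α × Bool)) (ps : List (α × α)) :
    3 * (ps.map (S4 P)).sum ≤ tint P (H ps) := by
  induction ps with
  | nil => simp [tint]
  | cons p ps ih =>
    rw [H_cons, List.map_cons, List.sum_cons]
    have h1 := tint_append P (Q p) (H ps)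
    have h2 := tint_Q P p
    omega

lemma length_H (ps : List (α × α)) : (H ps).length = 16 * ps.length := by
  induction ps with
  | nil => simp
  | cons p ps ih => rw [H_cons, List.length_append, ih]; simp [Q]; omega

lemma Q_adj {p : α × α} (hp : p.1 ≠ p.2) : ∀ q, q < 15 → ∀ a, (Q p)[q]? = some a →
    (Q p)[q + 1]? ≠ some a := by
  have hp' : p.2 ≠ p.1 := hp.symm
  intro q hq a h1 h2
  interval_cases q <;>
  · simp only [Q, List.getElem?_cons_zero, List.getElem?_cons_succ, Option.some.injEq] at h1 h2
    rw [← h2] at h1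
    simp [hp, hp'] at h1

/-- no three equal consecutive letters, and the first two letters are different -/
def NR (L : List (α × Bool)) : Prop :=
  (∀ q, ¬ Run3 L q) ∧ (∀ a, L[0]? = some a → L[1]? ≠ some a)

lemma NR_H {ps : List (α × α)} (hps : ∀ p ∈ ps, p.1 ≠ p.2) : NR (H ps) := by
  induction ps with
  | nil => exact ⟨fun q hq => by simpa using hq.lt_length, fun a h => by simp at h⟩
  | cons p ps ih =>
    have ih' := ih fun q hq => hps q (by simp [hq])
    have hp := hps p (by simp)
    have hlen : (Q p).length = 16 := by simp [Q]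
    have hl : ∀ q, q < 16 → (H (p :: ps))[q]? = (Q p)[q]? := fun q hq => by
      rw [H_cons, List.getElem?_append_left (by omega)]
    have hr : ∀ q, (H (p :: ps))[q + 16]? = (H ps)[q]? := fun q => by
      rw [H_cons, List.getElem?_append_right (by omega), hlen]; simp
    refine ⟨?_, ?_⟩
    · rintro q ⟨a, h1, h2, h3⟩
      rcases Nat.lt_or_ge q 15 with hq | hq
      · rw [hl q (by omega)] at h1
        rw [hl (q + 1) (by omega)] at h2
        exact Q_adj hp q hq a h1 h2
      · rcases Nat.lt_or_ge q 16 with hq2 | hq2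
        · have : q = 15 := by omega
          subst this
          have h2' := hr 0
          have h3' := hr 1
          rw [h2'] at h2
          rw [h3'] at h3
          exact ih'.2 a h2 h3
        · obtain ⟨r, rfl⟩ : ∃ r, q = r + 16 := ⟨q - 16, by omega⟩
          apply ih'.1 r
          refine ⟨a, ?_, ?_, ?_⟩
          · rw [← hr]; exact h1
          · rw [← hr, ← h2]
          · rw [← hr, ← h3]
    · intro a h1 h2
      rw [hl 0 (by omega)] at h1
      rw [hl 1 (by omega)] at h2
      exact Q_adj hp 0 (by omega) a h1 h2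

end Q

section Fin
variable {n : ℕ}

/-- the marker: `a₀³ a₁³ ⋯` -/
def Rr (n : ℕ) : List (Fin n × Bool) :=
  (List.finRange n).flatMap fun c => [(c, true), (c, true), (c, true)]

lemma Rr_aux (cs : List (Fin n)) : ∀ (i : ℕ) (c : Fin n), cs[i]? = some c → ∀ r, r < 3 →
    (cs.flatMap fun c => [(c, true), (c, true), (c, true)])[3 * i + r]? = some (c, true) := by
  induction cs with
  | nil => intro i c h; simp at h
  | cons d cs ih =>
    intro i c h r hr
    rw [List.flatMap_cons]
    cases i with
    | zero =>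
      simp only [List.getElem?_cons_zero, Option.some.injEq] at h
      subst h
      rw [List.getElem?_append_left (by simp; omega)]
      interval_cases r <;> rfl
    | succ i =>
      rw [List.getElem?_cons_succ] at h
      rw [List.getElem?_append_right (by simp; omega)]
      rw [← ih i c h r hr]
      congr 1
      simp; omega

lemma Rr_getElem? (c : Fin n) (r : ℕ) (hr : r < 3) :
    (Rr n)[3 * c.1 + r]? = some (c, true) := by
  apply Rr_aux _ _ _ _ _ hr
  simp

lemma Rr_length (n : ℕ) : (Rr n).length = 3 * n := by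
  have : ∀ cs : List (Fin n),
      (cs.flatMap fun c => [(c, true), (c, true), (c, true)]).length = 3 * cs.length := by
    intro cs
    induction cs with
    | nil => simp
    | cons c cs ih => rw [List.flatMap_cons, List.length_append, ih]; simp; omega
  rw [Rr, this, List.length_finRange]

lemma PP_Rr (n : ℕ) : PP (Rr n) := by
  unfold Rr
  generalize List.finRange n = cs
  induction cs with
  | nil => exact PP.nil
  | cons c cs ih =>
    rw [List.flatMap_cons]
    refine PP.append ?_ ih
    exact ⟨by simp, by simp, by simp⟩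

lemma cnt_Rr (s : Fin n × Bool) : cnt s (Rr n) = 3 := by
  have : ∀ cs : List (Fin n), cnt s (cs.flatMap fun c => [(c, true), (c, true), (c, true)]) =
      3 * cs.count s.1 := by
    intro cs
    induction cs with
    | nil => simp
    | cons c cs ih =>
      rw [List.flatMap_cons, cnt_append, ih, List.count_cons]
      simp only [cnt_cons, cnt_nil, letter_eq_iff, beq_iff_eq]
      split_ifs <;> omega
  rw [Rr, this, List.count_eq_one_of_mem (List.nodup_finRange n) (List.mem_finRange _)]

/-- a full list of pairs with prescribed first and last pair -/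
noncomputable def full (p q : Fin n × Fin n) : List (Fin n × Fin n) :=
  p :: (((Finset.univ : Finset (Fin n)).offDiag.erase p).erase q).toList ++ [q]

lemma sum_full (f : Fin n × Fin n → ℕ) {p q : Fin n × Fin n} (hp : p.1 ≠ p.2) (hq : q.1 ≠ q.2)
    (hpq : p ≠ q) :
    ((full p q).map f).sum = ∑ x ∈ (Finset.univ : Finset (Fin n)).offDiag, f x := by
  unfold full
  rw [List.map_append, List.map_cons, List.sum_append, List.sum_cons, Finset.sum_map_toList]
  have h1 : p ∈ (Finset.univ : Finset (Fin n)).offDiag := by simp [hp]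
  have h2 : q ∈ (Finset.univ : Finset (Fin n)).offDiag.erase p := by simp [hq, hpq.symm]
  rw [← Finset.add_sum_erase _ f h1, ← Finset.add_sum_erase _ f h2]
  simp only [List.map_cons, List.map_nil, List.sum_cons, List.sum_nil]
  ring

lemma mem_full {p q : Fin n × Fin n} (hp : p.1 ≠ p.2) (hq : q.1 ≠ q.2) :
    ∀ x ∈ full p q, x.1 ≠ x.2 := by
  intro x hx
  unfold full at hx
  simp only [List.cons_append, List.mem_cons, List.mem_append, Finset.mem_toList,
    Finset.mem_erase, Finset.mem_offDiag, Finset.mem_univ, true_and, List.not_mem_nil,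
    or_false] at hx
  rcases hx with rfl | h | rfl
  · exact hp
  · exact h.2.2
  · exact hq

lemma length_full {p q : Fin n × Fin n} (hp : p.1 ≠ p.2) (hq : q.1 ≠ q.2) (hpq : p ≠ q) :
    (full p q).length = n * (n - 1) := by
  have := sum_full (fun _ => 1) hp hq hpq
  simp only [List.map_const', List.sum_replicate, smul_eq_mul, mul_one, Finset.sum_const,
    Finset.offDiag_card, Finset.card_univ, Fintype.card_fin] at this
  rw [this, Nat.mul_sub, mul_one]

lemma sum_offDiag (f : Fin n × Fin n → ℕ) :
    ∑ x ∈ (Finset.univ : Finset (Fin n)).offDiag, f x + ∑ i, f (i, i) = ∑ i, ∑ j, f (i, j) := by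
  rw [← Finset.sum_product',
    ← Finset.diag_union_offDiag (s := (Finset.univ : Finset (Fin n))),
    Finset.sum_union (Finset.disjoint_diag_offDiag _), Finset.sum_diag, add_comm]

lemma cnt_full (s : Fin n × Bool) {p q : Fin n × Fin n} (hp : p.1 ≠ p.2) (hq : q.1 ≠ q.2)
    (hpq : p ≠ q) : cnt s (H (full p q)) = 16 * (n - 1) := by
  rw [cnt_H, sum_full _ hp hq hpq]
  have h := sum_offDiag (n := n) fun p => 8 * (if p.1 = s.1 then 1 else 0)
      + 8 * (if p.2 = s.1 then 1 else 0)
  have h1 : ∑ i : Fin n, ∑ j : Fin n, (8 * (if i = s.1 then 1 else 0)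
      + 8 * (if j = s.1 then 1 else 0)) = 16 * n := by
    simp only [Finset.sum_add_distrib, Finset.sum_const, Finset.card_univ, Fintype.card_fin,
      smul_eq_mul, ← Finset.mul_sum, Finset.sum_ite_eq', Finset.mem_univ, if_true]
    omega
  have h2 : ∑ i : Fin n, (8 * (if i = s.1 then 1 else 0)
      + 8 * (if i = s.1 then 1 else 0)) = 16 := by
    simp only [Finset.sum_add_distrib, ← Finset.mul_sum, Finset.sum_ite_eq', Finset.mem_univ,
      if_true]
    omega
  simp only at h
  rw [h1, h2] at h
  have hn : 1 ≤ n := Nat.one_le_of_lt s.1.2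
  rw [Nat.mul_sub, mul_one]
  omega

end Fin

section Turn
variable {n : ℕ}

/-- indicator -/
def ind (P : Finset (Fin n × Bool)) (a : Fin n × Bool) : ℤ := if a ∈ P then 1 else 0

lemma sep_eq (P : Finset (Fin n × Bool)) (a b : Fin n × Bool) :
    (sep P a b : ℤ) = ind P a + ind P b - 2 * ind P a * ind P b := by
  unfold sep ind
  by_cases h1 : a ∈ P <;> by_cases h2 : b ∈ P <;> simp [h1, h2]

/-- number of letters over `i` in `P` -/
def xx (P : Finset (Fin n × Bool)) (i : Fin n) : ℤ := ind P (i, true) + ind P (i, false)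

lemma S4_eq (P : Finset (Fin n × Bool)) (i j : Fin n) :
    (S4 P (i, j) : ℤ) = 2 * xx P i + 2 * xx P j - 2 * (xx P i * xx P j) := by
  unfold S4 xx
  push_cast
  simp only [sep_eq]
  ring

lemma xx_cases (P : Finset (Fin n × Bool)) (i : Fin n) : xx P i = 0 ∨ xx P i = 1 ∨ xx P i = 2 := by
  unfold xx ind
  split_ifs <;> simp

lemma sum_xx (P : Finset (Fin n × Bool)) : ∑ i, xx P i = P.card := by
  have h1 : (P.card : ℤ) = ∑ a : Fin n × Bool, ind P a := by
    unfold ind
    rw [Finset.sum_ite_mem, Finset.univ_inter]; simp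
  rw [h1, Fintype.sum_prod_type]
  refine Finset.sum_congr rfl fun i _ => ?_
  rw [Fintype.sum_bool]; rfl

lemma sum_S4 (P : Finset (Fin n × Bool)) (h1 : 2 ≤ P.card) (h2 : P.card + 2 ≤ 2 * n) :
    8 * n ≤ ∑ x ∈ (Finset.univ : Finset (Fin n)).offDiag, S4 P x + 12 := by
  have h := sum_offDiag (n := n) (S4 P)
  have hZ : (∑ x ∈ (Finset.univ : Finset (Fin n)).offDiag, (S4 P x : ℤ)) +
      ∑ i, (S4 P (i, i) : ℤ) = ∑ i, ∑ j, (S4 P (i, j) : ℤ) := by exact_mod_cast h
  set X : ℤ := (P.card : ℤ) with hX
  have hXs : ∑ i, xx P i = X := sum_xx P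
  have e1 : ∑ i, ∑ j, (S4 P (i, j) : ℤ) = 4 * n * X - 2 * X ^ 2 := by
    simp only [S4_eq, Finset.sum_sub_distrib, Finset.sum_add_distrib, ← Finset.mul_sum,
      Finset.sum_const, Finset.card_univ, Fintype.card_fin, nsmul_eq_mul, ← Finset.sum_mul, hXs]
    ring
  have e2 : ∑ i, (S4 P (i, i) : ℤ) = 4 * X - 2 * ∑ i, xx P i ^ 2 := by
    simp only [S4_eq, Finset.sum_sub_distrib, Finset.sum_add_distrib, ← Finset.mul_sum, hXs]
    rw [show ∑ i, xx P i * xx P i = ∑ i, xx P i ^ 2 from
      Finset.sum_congr rfl fun i _ => (sq _).symm]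
    ring
  have e3 : X ≤ ∑ i, xx P i ^ 2 := by
    rw [← hXs]
    refine Finset.sum_le_sum fun i _ => ?_
    rcases xx_cases P i with h | h | h <;> rw [h] <;> norm_num
  have e4 : 3 * X - 2 * n ≤ ∑ i, xx P i ^ 2 := by
    have : ∑ i : Fin n, (3 * xx P i - 2) ≤ ∑ i, xx P i ^ 2 := by
      refine Finset.sum_le_sum fun i _ => ?_
      rcases xx_cases P i with h | h | h <;> rw [h] <;> norm_num
    rw [Finset.sum_sub_distrib, ← Finset.mul_sum, hXs] at this
    simp only [Finset.sum_const, Finset.card_univ, Fintype.card_fin, nsmul_eq_mul] at this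
    linarith
  have hX2 : (2 : ℤ) ≤ X := by rw [hX]; exact_mod_cast h1
  have hX3 : X + 2 ≤ 2 * n := by rw [hX]; exact_mod_cast h2
  have goalZ : (8 * n : ℤ) ≤ (∑ x ∈ (Finset.univ : Finset (Fin n)).offDiag, (S4 P x : ℤ)) + 12 := by
    rw [e1, e2] at hZ
    rcases lt_or_ge X (2 * n - 2) with hc | hc
    · nlinarith
    · have hXe : X = 2 * n - 2 := by linarith
      nlinarith
  exact_mod_cast goalZ

end Turn

end Pool.Agent.Helper2.Malchar
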